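import Pool.Agent.H45.Lib.S8.H38R2.CG.Stubs

/-!
KR: the Kronecker symbol of a fundamental discriminant is a nonprincipal Dirichlet character.
-/

set_option autoImplicit false

namespace Pool.Agent.H38R2.CG

namespace KRh

open NumberTheorySymbols

theorem exists_char {D : ℕ} (hD : 1 < D) (g : ℕ → ℤ) (g1 : g 1 = 1)
    (gmul : ∀ a b, g (a * b) = g a * g b) (gper : ∀ a, g (a % D) = g a)
    (g0 : ∀ a, ¬ Nat.Coprime a D → g a = 0) :
    ∃ χ : DirichletCharacter ℂ D, ∀ n : ℕ, χ (n : ZMod D) = (g n : ℂ) := by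
  have : NeZero D := ⟨by omega⟩
  have : Fact (1 < D) := ⟨hD⟩
  refine ⟨{ toFun := fun a => (g a.val : ℂ), map_one' := ?_, map_mul' := ?_, map_nonunit' := ?_ },
    ?_⟩
  · rw [ZMod.val_one, g1]; simp
  · intro a b
    rw [ZMod.val_mul, gper, gmul]
    simp
  · intro a ha
    rw [g0 a.val, Int.cast_zero]
    intro h
    apply ha
    have := (ZMod.isUnit_iff_coprime a.val D).2 h
    rwa [ZMod.natCast_zmod_val] at this
  · intro n
    show ((g (n : ZMod D).val : ℤ) : ℂ) = (g n : ℂ)
    rw [ZMod.val_natCast, gper]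

theorem chi_odd {D : ℕ} {n : ℕ} (hn : Odd n) : chi D n = jacobiSym D n := by
  unfold chi
  have h2 : padicValNat 2 n = 0 := by
    apply padicValNat.eq_zero_of_not_dvd
    intro h
    rw [← even_iff_two_dvd] at h
    exact (Nat.not_even_iff_odd.2 hn) h
  rw [h2]
  simp

theorem two_pow_split {n : ℕ} (hn : n ≠ 0) :
    n = 2 ^ (padicValNat 2 n) * (n / 2 ^ (padicValNat 2 n)) ∧
      Odd (n / 2 ^ (padicValNat 2 n)) := by
  have : Fact (Nat.Prime 2) := ⟨Nat.prime_two⟩
  have h1 : 2 ^ (padicValNat 2 n) ∣ n := pow_padicValNat_dvd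
  refine ⟨(Nat.mul_div_cancel' h1).symm, ?_⟩
  rw [← Nat.not_even_iff_odd, even_iff_two_dvd]
  intro h
  have h3 : 2 ^ (padicValNat 2 n + 1) ∣ n := by
    obtain ⟨c, hc⟩ := h
    refine ⟨c, ?_⟩
    conv_lhs => rw [← Nat.mul_div_cancel' h1, hc]
    ring
  exact pow_succ_padicValNat_not_dvd hn h3

/-- the case `D = 1 mod 4` -/
theorem chi_one {D : ℕ} (hD : D % 4 = 1) {n : ℕ} (hn : 1 ≤ n) : chi D n = jacobiSym n D := by
  obtain ⟨h1, h2⟩ := two_pow_split (by omega : n ≠ 0)
  have hDo : Odd D := Nat.odd_iff.2 (by omega)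
  have h3 : jacobiSym 2 D = chi2 D := by
    rw [jacobiSym.at_two hDo, ZMod.χ₈_nat_eq_if_mod_eight]
    unfold chi2
    have h5 : ((D : ℤ) % 8 = 1 ↔ D % 8 = 1) := by omega
    have h6 : ((D : ℤ) % 8 = 5 ↔ D % 8 = 5) := by omega
    simp only [h5, h6]
    rcases (by omega : D % 8 = 1 ∨ D % 8 = 5) with h | h
    · simp [h]; omega
    · simp [h]; omega
  unfold chi
  set v := padicValNat 2 n with hv
  set n' := n / 2 ^ v with hn'
  conv_rhs => rw [h1]
  rw [Nat.cast_mul, Nat.cast_pow, Nat.cast_ofNat, jacobiSym.mul_left, jacobiSym.pow_left, h3,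
    jacobiSym.quadratic_reciprocity_one_mod_four hD h2]

/-- the case `D = 4 m` -/
noncomputable def g4 (m n : ℕ) : ℤ := if Even n then 0 else jacobiSym m n

theorem chi_four {m : ℕ} {n : ℕ} (hn : 1 ≤ n) : chi ((4 * m : ℕ) : ℤ) n = g4 m n := by
  unfold g4
  split_ifs with h
  · unfold chi
    have h2 : chi2 ((4 * m : ℕ) : ℤ) = 0 := by
      unfold chi2
      have h5 : ¬ ((4 * m : ℕ) : ℤ) % 8 = 1 := by omega
      have h6 : ¬ ((4 * m : ℕ) : ℤ) % 8 = 5 := by omega
      rw [if_neg h5, if_neg h6]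
    have h3 : padicValNat 2 n ≠ 0 := by
      have := one_le_padicValNat_of_dvd (p := 2) (by omega : n ≠ 0) (even_iff_two_dvd.1 h)
      omega
    rw [h2, zero_pow h3, zero_mul]
  · have ho := Nat.not_even_iff_odd.1 h
    rw [chi_odd ho, Nat.cast_mul, Nat.cast_ofNat, jacobiSym.mul_left, jacobiSym.at_four ho,
      one_mul]

end KRh

open KRh NumberTheorySymbols

theorem T_KR : P_KR := by
  rintro D ⟨hD1, hD⟩
  rcases hD with ⟨h4, hsq⟩ | ⟨m, rfl, hm, hsq⟩
  · have hDo : Odd D := Nat.odd_iff.2 (by omega)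
    have : NeZero D := ⟨by omega⟩
    obtain ⟨χ, hχ⟩ := exists_char hD1 (fun n => jacobiSym n D) (by simp)
      (fun a b => by simp [jacobiSym.mul_left]) (fun a => by
        simp only [Int.natCast_mod]
        exact (jacobiSym.mod_left _ _).symm) (fun a ha => by
        rw [jacobiSym.eq_zero_iff_not_coprime]
        simpa using ha)
    refine ⟨χ, ?_, fun n hn => by rw [hχ, chi_one h4 hn]⟩
    intro h1
    -- a prime factor and a nonresidue
    obtain ⟨q, hq, hqD⟩ := Nat.exists_prime_and_dvd (by omega : D ≠ 1)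
    obtain ⟨D', rfl⟩ := hqD
    have : Fact q.Prime := ⟨hq⟩
    have hcop : Nat.Coprime q D' := (Nat.squarefree_mul_iff.1 hsq).1
    have hqo : Odd q := by
      rcases hq.eq_two_or_odd' with h | h
      · subst h; exfalso
        have := Nat.odd_iff.1 hDo
        omega
      · exact h
    have hD'0 : D' ≠ 0 := by rintro rfl; simp at hD1
    have : NeZero D' := ⟨hD'0⟩
    have : NeZero q := ⟨hq.ne_zero⟩
    obtain ⟨a, ha⟩ := FiniteField.exists_nonsquare (F := ZMod q) (by
      rw [ZMod.ringChar_zmod_n]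
      rintro rfl
      exact absurd hqo (by decide))
    obtain ⟨n, hn1, hn2⟩ := Nat.chineseRemainder hcop a.val 1
    have e1 : jacobiSym n q = -1 := by
      have h5 : ((n : ℤ)) % (q : ℤ) = (a.val : ℤ) % (q : ℤ) := by exact_mod_cast hn1
      rw [jacobiSym.mod_left' h5, ← jacobiSym.legendreSym.to_jacobiSym, legendreSym.eq_neg_one_iff]
      simpa using ha
    have e2 : jacobiSym n D' = 1 := by
      have h5 : ((n : ℤ)) % (D' : ℤ) = (1 : ℤ) % (D' : ℤ) := by exact_mod_cast hn2
      rw [jacobiSym.mod_left' h5, jacobiSym.one_left]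
    have e3 : jacobiSym n (q * D') = -1 := by
      rw [jacobiSym.mul_right, e1, e2, mul_one]
    have e4 := hχ n
    rw [e3, h1] at e4
    have hu : IsUnit ((n : ℕ) : ZMod (q * D')) := by
      rw [ZMod.isUnit_iff_coprime]
      by_contra hc
      have : jacobiSym n (q * D') = 0 := by
        rw [jacobiSym.eq_zero_iff_not_coprime, Int.gcd_natCast_natCast]
        exact hc
      omega
    rw [MulChar.one_apply hu] at e4
    norm_num at e4
  · have hm0 : m ≠ 0 := by rintro rfl; simp at hD1
    have : NeZero m := ⟨hm0⟩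
    obtain ⟨χ, hχ⟩ := exists_char hD1 (g4 m) (by simp [g4])
      (fun a b => by
        unfold g4
        by_cases ha : Even a
        · simp [ha]
        by_cases hb : Even b
        · simp [hb]
        have hab : ¬ Even (a * b) := by
          rw [Nat.even_mul]; tauto
        rw [if_neg ha, if_neg hb, if_neg hab]
        refine jacobiSym.mul_right' _ ?_ ?_
        · rintro rfl; simp at ha
        · rintro rfl; simp at hb) (fun a => by
        unfold g4
        have he : Even (a % (4 * m)) ↔ Even a := by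
          rw [Nat.even_iff, Nat.even_iff, Nat.mod_mod_of_dvd _ ⟨2 * m, by ring⟩]
        simp only [he]
        split_ifs with h
        · rfl
        · exact (jacobiSym.mod_right' m (Nat.not_even_iff_odd.1 h)).symm) (fun a ha => by
        unfold g4
        split_ifs with h
        · rfl
        · have ho := Nat.not_even_iff_odd.1 h
          have : NeZero a := ⟨by rintro rfl; simp at h⟩
          rw [jacobiSym.eq_zero_iff_not_coprime]
          intro hc
          apply ha
          have h2 : Nat.Coprime m a := by simpa using hc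
          refine Nat.Coprime.mul_right ?_ h2.symm
          have : Nat.Coprime a 2 := by
            rw [Nat.coprime_comm, Nat.coprime_two_left]
            exact ho
          exact (Nat.Coprime.pow_right 2 this))
    refine ⟨χ, ?_, fun n hn => by rw [hχ, chi_four hn]⟩
    intro h1
    have ho : Odd (2 * m + 1) := ⟨m, rfl⟩
    have e3 : g4 m (2 * m + 1) = -1 := by
      unfold g4
      rw [if_neg (Nat.not_even_iff_odd.2 ho)]
      rcases hm with hm | hm
      · obtain ⟨m', rfl⟩ : ∃ m', m = 2 * m' := ⟨m / 2, by omega⟩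
        have hm'o : Odd m' := Nat.odd_iff.2 (by omega)
        rw [Nat.cast_mul, jacobiSym.mul_left, Nat.cast_ofNat, jacobiSym.at_two ho,
          ZMod.χ₈_nat_eq_if_mod_eight, ← jacobiSym.quadratic_reciprocity_one_mod_four
            (by omega : (2 * (2 * m') + 1) % 4 = 1) hm'o]
        have e5 : jacobiSym ((2 * (2 * m') + 1 : ℕ) : ℤ) m' = 1 := by
          have h5 : ((2 * (2 * m') + 1 : ℕ) : ℤ) % (m' : ℤ) = (1 : ℤ) % (m' : ℤ) := by
            push_cast
            rw [show (2 * (2 * (m' : ℤ)) + 1) = 1 + m' * 4 by ring, Int.add_mul_emod_self_left]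
          rw [jacobiSym.mod_left' h5, jacobiSym.one_left]
        rw [e5]
        have h8 : (2 * (2 * m') + 1) % 8 = 5 := by omega
        simp [h8]
      · rw [jacobiSym.quadratic_reciprocity_three_mod_four hm
          (by omega : (2 * m + 1) % 4 = 3)]
        have h5 : ((2 * m + 1 : ℕ) : ℤ) % (m : ℤ) = (1 : ℤ) % (m : ℤ) := by
          push_cast
          rw [show (2 * (m : ℤ) + 1) = 1 + m * 2 by ring, Int.add_mul_emod_self_left]
        rw [jacobiSym.mod_left' h5, jacobiSym.one_left]
    have e4 := hχ (2 * m + 1)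
    rw [e3, h1] at e4
    have hu : IsUnit (((2 * m + 1 : ℕ) : ℕ) : ZMod (4 * m)) := by
      rw [ZMod.isUnit_iff_coprime]
      have c1 : Nat.Coprime (2 * m + 1) m := by
        rw [mul_comm]; simp
      have c2 : Nat.Coprime (2 * m + 1) 2 := by
        rw [Nat.coprime_comm, Nat.coprime_two_left]
        exact ho
      exact Nat.Coprime.mul_right (Nat.Coprime.pow_right 2 c2) c1
    rw [MulChar.one_apply hu] at e4
    norm_num at e4

end Pool.Agent.H38R2.CG
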