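import Pool.Agent.H45.Lib.S8.H38R2.CG.Stubs

/-!
# The first moment of L(1, chi_D)
-/

set_option autoImplicit false

namespace Pool.Agent.H38R2.CG

open Finset Filter
open scoped Classical

namespace LMh

lemma chi2_cases (D : ℤ) : chi2 D = 1 ∨ chi2 D = -1 ∨ chi2 D = 0 := by
  unfold chi2; split_ifs <;> simp

lemma chi_one (D : ℤ) : chi D 1 = 1 := by
  simp [chi]

lemma chi_mul (D : ℤ) (m n : ℕ) (hm : m ≠ 0) (hn : n ≠ 0) :
    chi D (m * n) = chi D m * chi D n := by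
  unfold chi
  have h2 : Fact (Nat.Prime 2) := ⟨Nat.prime_two⟩
  rw [padicValNat.mul hm hn]
  have h1 : 2 ^ padicValNat 2 m ∣ m := pow_padicValNat_dvd
  have h3 : 2 ^ padicValNat 2 n ∣ n := pow_padicValNat_dvd
  have h4 : m * n / 2 ^ (padicValNat 2 m + padicValNat 2 n) =
      (m / 2 ^ padicValNat 2 m) * (n / 2 ^ padicValNat 2 n) := by
    rw [pow_add]
    exact (Nat.div_mul_div_comm h1 h3).symm
  rw [h4, jacobiSym.mul_right' _ (Nat.div_pos (Nat.le_of_dvd (Nat.pos_of_ne_zero hm) h1)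
    (by positivity)).ne' (Nat.div_pos (Nat.le_of_dvd (Nat.pos_of_ne_zero hn) h3)
    (by positivity)).ne', pow_add]
  ring

lemma chi_abs_le (D : ℤ) (n : ℕ) : |chi D n| ≤ 1 := by
  unfold chi
  rw [abs_mul, abs_pow]
  have h1 : |chi2 D| ≤ 1 := by
    rcases chi2_cases D with h | h | h <;> simp [h]
  have h2 : |jacobiSym D (n / 2 ^ padicValNat 2 n)| ≤ 1 := by
    rcases jacobiSym.trichotomy D (n / 2 ^ padicValNat 2 n) with h | h | h <;> simp [h]
  calc |chi2 D| ^ padicValNat 2 n * |jacobiSym D (n / 2 ^ padicValNat 2 n)| ≤ 1 * 1 := by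
        gcongr
        exact pow_le_one₀ (abs_nonneg _) h1
    _ = 1 := one_mul 1

lemma chi_abs_le' (D : ℤ) (n : ℕ) : |(chi D n : ℝ)| ≤ 1 := by
  have := chi_abs_le D n
  exact_mod_cast this

lemma prime_dvd_Qz {z p : ℕ} (hp : p.Prime) (hpz : p ≤ z) : p ∣ Qz z := by
  unfold Qz
  by_cases h2 : p = 2
  · subst h2
    exact Dvd.dvd.mul_right (by norm_num) _
  · have h3 : 3 ≤ p := by
      have := hp.two_le
      omega
    apply Dvd.dvd.mul_left
    have : p ∈ (Finset.Icc 3 z).filter Nat.Prime := by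
      simp [h3, hpz, hp]
    exact (dvd_pow_self p two_ne_zero).trans
      (Finset.dvd_prod_of_mem (fun l : ℕ => l ^ 2) this)

lemma le_of_prime_dvd_Qz {z p : ℕ} (hz : 2 ≤ z) (hp : p.Prime) (h : p ∣ Qz z) : p ≤ z := by
  unfold Qz at h
  rcases (Nat.Prime.dvd_mul hp).mp h with h | h
  · have : p ∣ 2 ^ 4 := by simpa using h
    have := hp.dvd_of_dvd_pow this
    have := Nat.le_of_dvd (by norm_num) this
    omega
  · obtain ⟨l, hl, hpl⟩ := (Prime.dvd_finset_prod_iff hp.prime _).mp h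
    simp only [Finset.mem_filter, Finset.mem_Icc] at hl
    have := hp.dvd_of_dvd_pow hpl
    have := (Nat.prime_dvd_prime_iff_eq hp hl.2).mp this
    omega

lemma Qz_pos (z : ℕ) : 0 < Qz z := by
  unfold Qz
  apply Nat.mul_pos (by norm_num)
  apply Finset.prod_pos
  intro l hl
  simp only [Finset.mem_filter, Finset.mem_Icc] at hl
  exact pow_pos (by omega) 2

lemma sixteen_dvd_Qz (z : ℕ) : 16 ∣ Qz z := by
  unfold Qz
  exact dvd_mul_right _ _

/-- on integers coprime to `Qz z` the symbol is the Jacobi symbol -/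
lemma chi_coprime {z n : ℕ} (h : n.Coprime (Qz z)) (D : ℤ) : chi D n = jacobiSym D n := by
  have h2 : ¬ 2 ∣ n := by
    intro h2
    have : 2 ∣ Qz z := Dvd.dvd.trans (by norm_num) (sixteen_dvd_Qz z)
    have := Nat.dvd_gcd h2 this
    rw [h] at this
    norm_num at this
  unfold chi
  rw [padicValNat.eq_zero_of_not_dvd h2]
  simp

/-- on smooth numbers the symbol depends only on the residue class -/
lemma chi_smooth {z r D : ℕ} (hD : D % Qz z = r) (n : ℕ) (hn : n ∈ Nat.smoothNumbers (z + 1)) :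
    chi D n = chi r n := by
  induction n using Nat.recOnMul with
  | zero => exact absurd rfl (Nat.ne_zero_of_mem_smoothNumbers hn)
  | one => rw [chi_one, chi_one]
  | prime p hp =>
    have hpz : p ≤ z := by
      have := (Nat.mem_smoothNumbers'.mp hn) p hp dvd_rfl
      omega
    by_cases h2 : p = 2
    · subst h2
      unfold chi
      have h3 : Fact (Nat.Prime 2) := ⟨Nat.prime_two⟩
      rw [padicValNat_self]
      simp only [pow_one, Nat.div_self (by norm_num : 0 < 2), jacobiSym.one_right, mul_one]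
      have h8 : D % 8 = r % 8 := by
        rw [← hD]
        exact (Nat.mod_mod_of_dvd D (Dvd.dvd.trans (by norm_num) (sixteen_dvd_Qz z))).symm
      unfold chi2
      have h9 : (D : ℤ) % 8 = (r : ℤ) % 8 := by exact_mod_cast h8
      rw [h9]
    · have hndvd : ¬ 2 ∣ p := by
        intro h
        exact h2 ((Nat.prime_dvd_prime_iff_eq Nat.prime_two hp).mp h).symm
      unfold chi
      rw [padicValNat.eq_zero_of_not_dvd hndvd]
      simp only [pow_zero, Nat.div_one, one_mul]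
      rw [jacobiSym.mod_left (D : ℤ) p, jacobiSym.mod_left (r : ℤ) p]
      have h8 : D % p = r % p := by
        rw [← hD]
        exact (Nat.mod_mod_of_dvd D (prime_dvd_Qz hp hpz)).symm
      have h9 : (D : ℤ) % (p : ℤ) = (r : ℤ) % (p : ℤ) := by exact_mod_cast h8
      rw [h9]
  | mul a b ha hb =>
    have hab := Nat.ne_zero_of_mem_smoothNumbers hn
    have ha0 : a ≠ 0 := left_ne_zero_of_mul hab
    have hb0 : b ≠ 0 := right_ne_zero_of_mul hab
    rw [chi_mul _ _ _ ha0 hb0, chi_mul _ _ _ ha0 hb0,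
      ha (Nat.mem_smoothNumbers_of_dvd hn (dvd_mul_right _ _)),
      hb (Nat.mem_smoothNumbers_of_dvd hn (dvd_mul_left _ _))]

/-- existence of the decomposition into smooth and rough part -/
lemma exists_decomp (z : ℕ) (hz : 2 ≤ z) (n : ℕ) (hn : n ≠ 0) :
    ∃ a b : ℕ, n = a * b ∧ a ∈ Nat.smoothNumbers (z + 1) ∧ b.Coprime (Qz z) := by
  induction n using Nat.recOnMul with
  | zero => exact absurd rfl hn
  | one => exact ⟨1, 1, rfl, Nat.mem_smoothNumbers_of_lt one_pos (by omega), Nat.coprime_one_left _⟩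
  | prime p hp =>
    by_cases hpz : p ≤ z
    · refine ⟨p, 1, (mul_one p).symm, ?_, Nat.coprime_one_left _⟩
      exact Nat.mem_smoothNumbers_of_lt hp.pos (by omega)
    · refine ⟨1, p, (one_mul p).symm, Nat.mem_smoothNumbers_of_lt one_pos (by omega), ?_⟩
      rw [Nat.Prime.coprime_iff_not_dvd hp]
      intro h
      exact hpz (le_of_prime_dvd_Qz hz hp h)
  | mul m n hm hn' =>
    obtain ⟨a, b, h1, h2, h3⟩ := hm (left_ne_zero_of_mul hn)
    obtain ⟨a', b', h1', h2', h3'⟩ := hn' (right_ne_zero_of_mul hn)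
    exact ⟨a * a', b * b', by rw [h1, h1']; ring, Nat.mul_mem_smoothNumbers h2 h2',
      Nat.Coprime.mul_left h3 h3'⟩

lemma coprime_smooth_rough {z a b : ℕ} (ha : a ∈ Nat.smoothNumbers (z + 1))
    (hb : b.Coprime (Qz z)) : a.Coprime b := by
  apply Nat.coprime_of_dvd
  intro p hp hpa hpb
  have h1 := (Nat.mem_smoothNumbers'.mp ha) p hp hpa
  have h2 : p ∣ Qz z := prime_dvd_Qz hp (by omega)
  have := Nat.dvd_gcd hpb h2
  rw [hb] at this
  exact hp.one_lt.ne' (Nat.dvd_one.mp this)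

lemma decomp_unique {z a b a' b' : ℕ} (ha : a ∈ Nat.smoothNumbers (z + 1))
    (hb : b.Coprime (Qz z)) (ha' : a' ∈ Nat.smoothNumbers (z + 1))
    (hb' : b'.Coprime (Qz z)) (h : a * b = a' * b') : a = a' ∧ b = b' := by
  have h1 : a ∣ a' := by
    have : a ∣ a' * b' := h ▸ dvd_mul_right a b
    exact (coprime_smooth_rough ha hb').dvd_of_dvd_mul_right this
  have h2 : a' ∣ a := by
    have : a' ∣ a * b := h ▸ dvd_mul_right a' b'
    exact (coprime_smooth_rough ha' hb).dvd_of_dvd_mul_right this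
  have h3 := Nat.dvd_antisymm h1 h2
  subst h3
  exact ⟨rfl, Nat.eq_of_mul_eq_mul_left (Nat.pos_of_ne_zero
    (Nat.ne_zero_of_mem_smoothNumbers ha)) h⟩

/-- the completely multiplicative function `chi r n / n` -/
noncomputable def fr (r : ℕ) : ℕ →* ℝ where
  toFun n := (chi r n : ℝ) / n
  map_one' := by simp [chi_one]
  map_mul' m n := by
    by_cases hm : m = 0
    · subst hm; simp
    by_cases hn : n = 0
    · subst hn; simp
    rw [chi_mul _ _ _ hm hn]
    push_cast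
    field_simp

lemma fr_apply (r n : ℕ) : fr r n = (chi r n : ℝ) / n := rfl

lemma fr_prime_lt (r : ℕ) {p : ℕ} (hp : p.Prime) : ‖fr r p‖ < 1 := by
  rw [fr_apply, Real.norm_eq_abs, abs_div, Nat.abs_cast]
  have h1 := chi_abs_le' r p
  have h2 : (1 : ℝ) < p := by exact_mod_cast hp.one_lt
  rw [div_lt_one (by linarith)]
  linarith

/-- partial sums over smooth numbers -/
noncomputable def G (z r k : ℕ) : ℝ :=
  ∑ n ∈ (Finset.Icc 1 k).filter (fun n => n ∈ Nat.smoothNumbers (z + 1)), (chi r n : ℝ) / n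

lemma prod_fr (z r : ℕ) : ∏ p ∈ (z + 1).primesBelow, (1 - fr r p)⁻¹ = 1 / PiR z r := by
  rw [Finset.prod_inv_distrib, one_div]
  congr 1
  unfold PiR Nat.primesBelow
  apply Finset.prod_congr
  · ext p
    simp only [Finset.mem_filter, Finset.mem_range, Finset.mem_Icc]
    constructor
    · rintro ⟨h1, h2⟩
      exact ⟨⟨h2.two_le, by omega⟩, h2⟩
    · rintro ⟨⟨h1, h2⟩, h3⟩
      exact ⟨by omega, h3⟩
  · intro p _
    rfl

lemma G_tendsto (z r : ℕ) : Tendsto (G z r) atTop (nhds (1 / PiR z r)) := by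
  have h := (EulerProduct.summable_and_hasSum_smoothNumbers_prod_primesBelow_geometric
    (f := fr r) (fun {p} hp => fr_prime_lt r hp) (z + 1)).2
  rw [prod_fr] at h
  have h2 := (hasSum_subtype_iff_indicator (f := fun n : ℕ => fr r n)
    (s := Nat.smoothNumbers (z + 1))).mp h
  have h3 := h2.tendsto_sum_nat.comp (tendsto_add_atTop_nat 1)
  refine h3.congr ?_
  intro k
  simp only [Function.comp]
  unfold G
  rw [Finset.sum_filter, Finset.range_eq_Ico, Finset.sum_eq_sum_Ico_succ_bot (by omega)]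
  have h0 : (Nat.smoothNumbers (z + 1)).indicator (fun n : ℕ => fr r n) 0 = 0 := by
    apply Set.indicator_of_notMem
    intro h
    exact Nat.ne_zero_of_mem_smoothNumbers h rfl
  rw [h0, zero_add]
  have hI : Finset.Ico (0 + 1) (k + 1) = Finset.Icc 1 k := by
    ext x; simp only [Finset.mem_Ico, Finset.mem_Icc]; omega
  rw [hI]
  apply Finset.sum_congr rfl
  intro n _
  rw [Set.indicator_apply]
  rfl

lemma PiR_pos (z r : ℕ) : 0 < PiR z r := by
  unfold PiR
  apply Finset.prod_pos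
  intro l hl
  simp only [Finset.mem_filter, Finset.mem_Icc] at hl
  have h1 := (abs_le.mp (chi_abs_le' r l)).2
  have h2 : (1 : ℝ) < l := by exact_mod_cast hl.2.one_lt
  have : (chi r l : ℝ) / l < 1 := by
    rw [div_lt_one (by linarith)]
    linarith
  linarith

/-- the error term -/
noncomputable def Er (z r N : ℕ) : ℝ :=
  ∑ m ∈ Finset.Icc 1 N, ((m : ℝ) ^ 2)⁻¹ * |G z r (N / m ^ 2) - 1 / PiR z r|

lemma Er_nonneg (z r N : ℕ) : 0 ≤ Er z r N :=
  Finset.sum_nonneg fun m _ => by positivity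

lemma Er_tendsto (z r : ℕ) : Tendsto (Er z r) atTop (nhds 0) := by
  obtain ⟨S, hS⟩ : ∃ S : ℝ, ∀ k, |G z r k - 1 / PiR z r| ≤ S := by
    have h := (G_tendsto z r).sub_const (1 / PiR z r)
    have h2 := h.abs.bddAbove_range
    obtain ⟨S, hS⟩ := h2
    exact ⟨S, fun k => hS ⟨k, rfl⟩⟩
  have hsum : Summable (fun m : ℕ => ((m : ℝ) ^ 2)⁻¹ * S) :=
    (Real.summable_nat_pow_inv.mpr (by norm_num)).mul_right S
  have key := tendsto_tsum_of_dominated_convergence (𝓕 := (atTop : Filter ℕ))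
    (f := fun N m => if m ∈ Finset.Icc 1 N then
      ((m : ℝ) ^ 2)⁻¹ * |G z r (N / m ^ 2) - 1 / PiR z r| else 0)
    (g := fun _ => (0 : ℝ)) hsum ?_ ?_
  · rw [tsum_zero] at key
    refine key.congr ?_
    intro N
    rw [tsum_eq_sum (s := Finset.Icc 1 N)]
    · unfold Er
      apply Finset.sum_congr rfl
      intro m hm
      rw [if_pos hm]
    · intro m hm
      rw [if_neg hm]
  · intro m
    by_cases hm : m = 0
    · subst hm
      simp
    · have h1 : Tendsto (fun N : ℕ => N / m ^ 2) atTop atTop :=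
        Nat.tendsto_div_const_atTop (pow_ne_zero 2 hm)
      have h2 := (((G_tendsto z r).comp h1).sub_const (1 / PiR z r)).abs.const_mul
        (((m : ℝ) ^ 2)⁻¹)
      rw [sub_self, abs_zero, mul_zero] at h2
      refine h2.congr' ?_
      filter_upwards [eventually_ge_atTop m] with N hN
      rw [if_pos (Finset.mem_Icc.mpr ⟨Nat.pos_of_ne_zero hm, hN⟩)]
      rfl
  · refine Filter.Eventually.of_forall fun N m => ?_
    have hS0 : 0 ≤ S := (abs_nonneg _).trans (hS 0)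
    split_ifs
    · rw [Real.norm_of_nonneg (by positivity)]
      exact mul_le_mul_of_nonneg_left (hS _) (by positivity)
    · rw [norm_zero]
      positivity

lemma sum_coprime (z N : ℕ) (hz : 2 ≤ z) :
    ∑ m ∈ (Finset.Icc 1 N).filter (fun m => m.Coprime (Qz z)), ((m : ℝ) ^ 2)⁻¹ ≤ 1 + 1 / z := by
  have hsub : (Finset.Icc 1 N).filter (fun m => m.Coprime (Qz z)) ⊆
      insert 1 (Finset.Ioc z (max z N)) := by
    intro m hm
    simp only [Finset.mem_filter, Finset.mem_Icc] at hm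
    simp only [Finset.mem_insert, Finset.mem_Ioc]
    by_cases h1 : m = 1
    · left; exact h1
    · right
      obtain ⟨p, hp, hpm⟩ := Nat.exists_prime_and_dvd h1
      have h2 : z < p := by
        by_contra hcon
        have h3 := prime_dvd_Qz hp (by omega : p ≤ z)
        have := Nat.dvd_gcd hpm h3
        rw [hm.2] at this
        exact hp.one_lt.ne' (Nat.dvd_one.mp this)
      have h4 := Nat.le_of_dvd (by omega) hpm
      exact ⟨by omega, le_max_of_le_right hm.1.2⟩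
  calc ∑ m ∈ (Finset.Icc 1 N).filter (fun m => m.Coprime (Qz z)), ((m : ℝ) ^ 2)⁻¹
      ≤ ∑ m ∈ insert 1 (Finset.Ioc z (max z N)), ((m : ℝ) ^ 2)⁻¹ :=
        Finset.sum_le_sum_of_subset_of_nonneg hsub fun _ _ _ => by positivity
    _ = 1 + ∑ m ∈ Finset.Ioc z (max z N), ((m : ℝ) ^ 2)⁻¹ := by
        rw [Finset.sum_insert (by simp only [Finset.mem_Ioc]; omega)]
        norm_num
    _ ≤ 1 + 1 / z := by
        have := sum_Ioc_inv_sq_le_sub (α := ℝ) (k := z) (n := max z N) (by omega) (le_max_left _ _)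
        have h2 : (0 : ℝ) ≤ ((max z N : ℕ) : ℝ)⁻¹ := by positivity
        rw [one_div]
        linarith

/-- the main inequality for a set `F` of discriminants -/
lemma main_ineq (z r : ℕ) (hz : 2 ≤ z) (F : Finset ℕ) (hF : ∀ D ∈ F, D % Qz z = r) (N : ℕ)
    (B : ℝ) (hB : 0 ≤ B) (hns : ∀ m : ℕ, 1 ≤ m → m ≤ N → m.Coprime (Qz z) → ¬ IsSquare m →
      |∑ D ∈ F, ((jacobiSym (D : ℤ) m : ℤ) : ℝ)| ≤ B) :
    ∑ D ∈ F, ∑ n ∈ Finset.Icc 1 N, (chi D n : ℝ) / n ≤
      B * ∑ n ∈ Finset.Icc 1 N, (1 : ℝ) / n +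
        F.card * ((1 + 1 / z) / PiR z r + Er z r N) := by
  set W : ℕ → ℝ := fun n => ∑ D ∈ F, (chi D n : ℝ) with hW
  have hswap : ∑ D ∈ F, ∑ n ∈ Finset.Icc 1 N, (chi D n : ℝ) / n =
      ∑ n ∈ Finset.Icc 1 N, W n / n := by
    rw [Finset.sum_comm]
    apply Finset.sum_congr rfl
    intro n _
    rw [hW, Finset.sum_div]
  set M : Finset ℕ := (Finset.Icc 1 N).filter (fun m => m.Coprime (Qz z)) with hM
  set Sg : Finset (Σ _ : ℕ, ℕ) := M.sigma (fun m =>
    (Finset.Icc 1 (N / m ^ 2)).filter (fun n => n ∈ Nat.smoothNumbers (z + 1))) with hSg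
  have hinj : Set.InjOn (fun x : Σ _ : ℕ, ℕ => x.2 * x.1 ^ 2) (Sg : Set (Σ _ : ℕ, ℕ)) := by
    rintro ⟨m, a⟩ h1 ⟨m', a'⟩ h2 h
    simp only [hSg, hM, Finset.coe_sigma, Set.mem_sigma_iff, Finset.mem_coe, Finset.mem_filter,
      Finset.mem_Icc] at h1 h2
    dsimp only at h
    obtain ⟨h3, h4⟩ := decomp_unique h1.2.2 (Nat.Coprime.pow_left 2 h1.1.2) h2.2.2
      (Nat.Coprime.pow_left 2 h2.1.2) h
    have h5 : m = m' := Nat.pow_left_injective (n := 2) (by norm_num) h4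
    subst h3 h5
    rfl
  set T : Finset ℕ := Sg.image (fun x => x.2 * x.1 ^ 2) with hT
  have hTsub : T ⊆ Finset.Icc 1 N := by
    intro n hn
    simp only [hT, Finset.mem_image] at hn
    obtain ⟨⟨m, a⟩, h1, rfl⟩ := hn
    simp only [hSg, hM, Finset.mem_sigma, Finset.mem_filter, Finset.mem_Icc] at h1
    have hm2 : 0 < m ^ 2 := pow_pos h1.1.1.1 2
    simp only [Finset.mem_Icc]
    refine ⟨Nat.mul_pos h1.2.1.1 hm2, ?_⟩
    exact (Nat.le_div_iff_mul_le hm2).mp h1.2.1.2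
  have hsplit : ∑ n ∈ Finset.Icc 1 N, W n / n = ∑ n ∈ Finset.Icc 1 N \ T, W n / n +
      ∑ n ∈ T, W n / n := (Finset.sum_sdiff hTsub).symm
  -- the nonsquare part
  have hns' : ∑ n ∈ Finset.Icc 1 N \ T, W n / n ≤ B * ∑ n ∈ Finset.Icc 1 N, (1 : ℝ) / n := by
    have h1 : ∀ n ∈ Finset.Icc 1 N \ T, W n / n ≤ B * (1 / n) := by
      intro n hn
      rw [Finset.mem_sdiff, Finset.mem_Icc] at hn
      obtain ⟨⟨hn1, hnN⟩, hnT⟩ := hn
      obtain ⟨a, b, hab, ha, hb⟩ := exists_decomp z hz n (by omega)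
      have ha0 : 0 < a := Nat.pos_of_ne_zero (Nat.ne_zero_of_mem_smoothNumbers ha)
      have hb0 : 0 < b := by
        rcases Nat.eq_zero_or_pos b with h | h
        · subst h; omega
        · exact h
      have hbn : b ≤ N := by
        have : b ≤ a * b := Nat.le_mul_of_pos_left b ha0
        omega
      have hsq : ¬ IsSquare b := by
        rintro ⟨m, hm⟩
        apply hnT
        rw [hT, Finset.mem_image]
        refine ⟨⟨m, a⟩, ?_, by dsimp only; rw [hab, hm]; ring⟩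
        have hm0 : 0 < m := by
          rcases Nat.eq_zero_or_pos m with h | h
          · subst h; omega
          · exact h
        have hmc : m.Coprime (Qz z) := Nat.Coprime.coprime_dvd_left ⟨m, hm⟩ hb
        simp only [hSg, hM, Finset.mem_sigma, Finset.mem_filter, Finset.mem_Icc]
        refine ⟨⟨⟨hm0, ?_⟩, hmc⟩, ⟨ha0, ?_⟩, ha⟩
        · have : m ≤ m * m := Nat.le_mul_of_pos_left m hm0
          omega
        · rw [Nat.le_div_iff_mul_le (by positivity)]
          calc a * m ^ 2 = n := by rw [hab, hm]; ring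
            _ ≤ N := hnN
      have hWn : W n = (chi r a : ℝ) * ∑ D ∈ F, ((jacobiSym (D : ℤ) b : ℤ) : ℝ) := by
        rw [hW, Finset.mul_sum]
        apply Finset.sum_congr rfl
        intro D hD
        rw [hab, chi_mul _ _ _ ha0.ne' hb0.ne', chi_smooth (hF D hD) a ha, chi_coprime hb]
        push_cast
        rfl
      have h2 : W n ≤ B := by
        refine (le_abs_self _).trans ?_
        rw [hWn, abs_mul]
        calc |(chi r a : ℝ)| * |∑ D ∈ F, ((jacobiSym (D : ℤ) b : ℤ) : ℝ)| ≤ 1 * B := by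
              gcongr
              · exact chi_abs_le' _ _
              · exact hns b hb0 hbn hb hsq
          _ = B := one_mul B
      rw [mul_one_div]
      gcongr
    calc ∑ n ∈ Finset.Icc 1 N \ T, W n / n ≤ ∑ n ∈ Finset.Icc 1 N \ T, B * (1 / n) :=
          Finset.sum_le_sum h1
      _ ≤ ∑ n ∈ Finset.Icc 1 N, B * (1 / (n : ℝ)) :=
          Finset.sum_le_sum_of_subset_of_nonneg Finset.sdiff_subset fun _ _ _ => by positivity
      _ = B * ∑ n ∈ Finset.Icc 1 N, (1 : ℝ) / n := by rw [Finset.mul_sum]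
  -- the square part
  set c : ℕ → ℝ := fun m => ∑ D ∈ F, (((jacobiSym (D : ℤ) m : ℤ) : ℝ)) ^ 2 with hc
  have hc0 : ∀ m, 0 ≤ c m := fun m => Finset.sum_nonneg fun _ _ => sq_nonneg _
  have hc1 : ∀ m, c m ≤ F.card := by
    intro m
    calc c m ≤ ∑ D ∈ F, (1 : ℝ) := by
          apply Finset.sum_le_sum
          intro D _
          rcases jacobiSym.trichotomy (D : ℤ) m with h | h | h <;> simp [h]
      _ = F.card := by simp
  have hsq : ∑ n ∈ T, W n / n = ∑ m ∈ M, c m * ((m : ℝ) ^ 2)⁻¹ * G z r (N / m ^ 2) := by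
    rw [hT, Finset.sum_image hinj, hSg, Finset.sum_sigma]
    apply Finset.sum_congr rfl
    intro m hm
    rw [hM, Finset.mem_filter, Finset.mem_Icc] at hm
    unfold G
    rw [Finset.mul_sum]
    apply Finset.sum_congr rfl
    intro a ha
    rw [Finset.mem_filter, Finset.mem_Icc] at ha
    dsimp only
    have hm0 : m ≠ 0 := by omega
    have ha0 : a ≠ 0 := by omega
    have hWn : W (a * m ^ 2) = (chi r a : ℝ) * c m := by
      rw [hW, hc, Finset.mul_sum]
      apply Finset.sum_congr rfl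
      intro D hD
      rw [chi_mul _ _ _ ha0 (pow_ne_zero 2 hm0), chi_smooth (hF D hD) a ha.2,
        chi_coprime (Nat.Coprime.pow_left 2 hm.2), jacobiSym.pow_right]
      push_cast
      rfl
    rw [hWn]
    push_cast
    have hm0' : (m : ℝ) ≠ 0 := by exact_mod_cast hm0
    have ha0' : (a : ℝ) ≠ 0 := by exact_mod_cast ha0
    field_simp
  have hPi := PiR_pos z r
  have hsq' : ∑ n ∈ T, W n / n ≤ F.card * ((1 + 1 / z) / PiR z r + Er z r N) := by
    rw [hsq]
    have h1 : ∀ m ∈ M, c m * ((m : ℝ) ^ 2)⁻¹ * G z r (N / m ^ 2) ≤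
        F.card * (((m : ℝ) ^ 2)⁻¹ * (1 / PiR z r) +
          ((m : ℝ) ^ 2)⁻¹ * |G z r (N / m ^ 2) - 1 / PiR z r|) := by
      intro m _
      have h2 : G z r (N / m ^ 2) ≤ 1 / PiR z r + |G z r (N / m ^ 2) - 1 / PiR z r| := by
        have := le_abs_self (G z r (N / m ^ 2) - 1 / PiR z r)
        linarith
      have h3 : 0 ≤ c m * ((m : ℝ) ^ 2)⁻¹ := mul_nonneg (hc0 m) (by positivity)
      calc c m * ((m : ℝ) ^ 2)⁻¹ * G z r (N / m ^ 2)
          ≤ c m * ((m : ℝ) ^ 2)⁻¹ * (1 / PiR z r + |G z r (N / m ^ 2) - 1 / PiR z r|) :=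
            mul_le_mul_of_nonneg_left h2 h3
        _ ≤ F.card * ((m : ℝ) ^ 2)⁻¹ * (1 / PiR z r + |G z r (N / m ^ 2) - 1 / PiR z r|) := by
            gcongr
            exact hc1 m
        _ = _ := by ring
    calc ∑ m ∈ M, c m * ((m : ℝ) ^ 2)⁻¹ * G z r (N / m ^ 2)
        ≤ ∑ m ∈ M, (F.card : ℝ) * (((m : ℝ) ^ 2)⁻¹ * (1 / PiR z r) +
          ((m : ℝ) ^ 2)⁻¹ * |G z r (N / m ^ 2) - 1 / PiR z r|) := Finset.sum_le_sum h1
      _ = F.card * ((∑ m ∈ M, ((m : ℝ) ^ 2)⁻¹) * (1 / PiR z r) +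
          ∑ m ∈ M, ((m : ℝ) ^ 2)⁻¹ * |G z r (N / m ^ 2) - 1 / PiR z r|) := by
          rw [← Finset.mul_sum, Finset.sum_add_distrib, ← Finset.sum_mul]
      _ ≤ F.card * ((1 + 1 / z) * (1 / PiR z r) + Er z r N) := by
          gcongr
          · exact sum_coprime z N hz
          · unfold Er
            exact Finset.sum_le_sum_of_subset_of_nonneg (Finset.filter_subset _ _)
              fun _ _ _ => by positivity
      _ = _ := by ring
  rw [hswap, hsplit]
  linarith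

lemma card_DD (z r X : ℕ) (hr : r < Qz z) (η : ℝ) (hη : 0 ≤ η) :
    ((DD z r X η).card : ℝ) ≤ η * X / Qz z + 1 := by
  have hQ := Qz_pos z
  have hQ' : (0 : ℝ) < Qz z := by exact_mod_cast hQ
  have h1 : DD z r X η = (Finset.Ioc X ⌊(1 + η) * X⌋₊).filter (fun D => D ≡ r [MOD Qz z]) := by
    unfold DD
    apply Finset.filter_congr
    intro D _
    unfold Nat.ModEq
    rw [Nat.mod_eq_of_lt hr]
  have h2 := Nat.Ioc_filter_modEq_card X ⌊(1 + η) * X⌋₊ hQ r
  rw [← h1] at h2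
  have hb : X ≤ ⌊(1 + η) * X⌋₊ := by
    apply Nat.le_floor
    nlinarith [Nat.cast_nonneg (α := ℝ) X]
  have h3 : (((DD z r X η).card : ℤ) : ℚ) ≤
      ((⌊(1 + η) * X⌋₊ : ℚ) - X) / (Qz z : ℚ) + 1 := by
    rw [h2]
    have h4 : ((⌊(((⌊(1 + η) * X⌋₊ : ℕ) : ℚ) - r) / (Qz z : ℚ)⌋ : ℤ) : ℚ) ≤
      (((⌊(1 + η) * X⌋₊ : ℕ) : ℚ) - r) / (Qz z : ℚ) := Int.floor_le _
    have h5 : ((X : ℚ) - r) / (Qz z : ℚ) - 1 < ((⌊((X : ℚ) - r) / (Qz z : ℚ)⌋ : ℤ) : ℚ) :=
      Int.sub_one_lt_floor _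
    have hb' : (X : ℚ) ≤ ((⌊(1 + η) * X⌋₊ : ℕ) : ℚ) := by exact_mod_cast hb
    have hQq : (0 : ℚ) < Qz z := by exact_mod_cast hQ
    push_cast
    apply max_le
    · have h6 : (((⌊(1 + η) * X⌋₊ : ℕ) : ℚ) - X) / (Qz z : ℚ) =
        (((⌊(1 + η) * X⌋₊ : ℕ) : ℚ) - r) / (Qz z : ℚ) - ((X : ℚ) - r) / (Qz z : ℚ) := by ring
      rw [h6]
      linarith
    · have : (0 : ℚ) ≤ (((⌊(1 + η) * X⌋₊ : ℕ) : ℚ) - X) / (Qz z : ℚ) :=
        div_nonneg (by linarith) hQq.le
      linarith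
  have h3' : ((DD z r X η).card : ℝ) ≤ ((⌊(1 + η) * X⌋₊ : ℝ) - X) / (Qz z : ℝ) + 1 := by
    exact_mod_cast h3
  refine h3'.trans ?_
  have h4 : (⌊(1 + η) * X⌋₊ : ℝ) ≤ (1 + η) * X :=
    Nat.floor_le (by positivity)
  gcongr
  linarith

lemma sum_inv_le (N : ℕ) : ∑ n ∈ Finset.Icc 1 N, (1 : ℝ) / n ≤ 1 + Real.log N := by
  have h := harmonic_le_one_add_log N
  have h2 : ((harmonic N : ℚ) : ℝ) = ∑ n ∈ Finset.Icc 1 N, (1 : ℝ) / n := by
    rw [harmonic_eq_sum_Icc]
    push_cast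
    apply Finset.sum_congr rfl
    intro n _
    rw [one_div]
  rw [← h2]
  exact h

end LMh

open LMh in
theorem T_LM : P_N3a → P_LM2 → P_LM := by
  intro hN3a hLM2 z r hz hfr η hη hη1 ε hε
  obtain ⟨C, hC, hN3⟩ := hN3a
  obtain ⟨X1, hX1⟩ := hLM2 z r hfr η hη hη1
  have hQ : (0 : ℝ) < Qz z := by exact_mod_cast Qz_pos z
  have hPi := PiR_pos z r
  have hz0 : (0 : ℝ) < z := by
    have : 0 < z := by omega
    exact_mod_cast this
  set A : ℝ := (1 + 1 / z) / PiR z r with hA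
  have hApos : 0 < A := by positivity
  -- the error functions
  have hcast : Tendsto (fun X : ℕ => (X : ℝ)) atTop atTop := tendsto_natCast_atTop_atTop
  have hlog : ∀ s : ℝ, 0 < s → Tendsto (fun X : ℕ => Real.log X / (X : ℝ) ^ s) atTop (nhds 0) :=
    fun s hs => (isLittleO_log_rpow_atTop hs).tendsto_div_nhds_zero.comp hcast
  have hinv : ∀ s : ℝ, 0 < s → ∀ c : ℝ, Tendsto (fun X : ℕ => c / (X : ℝ) ^ s) atTop (nhds 0) :=
    fun s hs c => ((tendsto_rpow_atTop hs).comp hcast).const_div_atTop c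
  have he1 : Tendsto (fun X : ℕ => (1 + Real.log X) / (X : ℝ) ^ (3 / 10 : ℝ)) atTop (nhds 0) := by
    have := (hinv (3 / 10) (by norm_num) 1).add (hlog (3 / 10) (by norm_num))
    rw [add_zero] at this
    refine this.congr fun X => ?_
    rw [add_div]
  have he2 : Tendsto (fun X : ℕ => C * (2 * √2) * ((Real.log 2 + Real.log X) /
      (X : ℝ) ^ (1 / 10 : ℝ))) atTop (nhds 0) := by
    have := ((hinv (1 / 10) (by norm_num) (Real.log 2)).add
      (hlog (1 / 10) (by norm_num))).const_mul (C * (2 * √2))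
    rw [add_zero, mul_zero] at this
    refine this.congr fun X => ?_
    rw [add_div]
  have hfl : Tendsto (fun X : ℕ => ⌊(X : ℝ) ^ (3 / 5 : ℝ)⌋₊) atTop atTop :=
    tendsto_nat_floor_atTop.comp ((tendsto_rpow_atTop (by norm_num)).comp hcast)
  have he3 := (Er_tendsto z r).comp hfl
  have hxinv : Tendsto (fun X : ℕ => (1 : ℝ) / X) atTop (nhds 0) :=
    hcast.const_div_atTop 1
  have hlim : Tendsto (fun X : ℕ => (1 + Real.log X) / (X : ℝ) ^ (3 / 10 : ℝ) +
      (η / Qz z + 1 / X) * (A + Er z r ⌊(X : ℝ) ^ (3 / 5 : ℝ)⌋₊ + C * (2 * √2) *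
      ((Real.log 2 + Real.log X) / (X : ℝ) ^ (1 / 10 : ℝ)))) atTop
      (nhds (0 + (η / Qz z + 0) * (A + 0 + 0))) :=
    he1.add ((hxinv.const_add _).mul ((he3.const_add A).add he2))
  have hlt : 0 + (η / Qz z + 0) * (A + 0 + 0) < (1 + ε) * (1 + 4 / z) * (η / Qz z) / PiR z r := by
    have h1 : A ≤ (1 + 4 / z) / PiR z r := by
      rw [hA]
      gcongr
      norm_num
    have h2 : 0 < η / Qz z := by positivity
    have h3 : 0 < (1 + 4 / z) / PiR z r := by positivity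
    calc 0 + (η / Qz z + 0) * (A + 0 + 0) = (η / Qz z) * A := by ring
      _ ≤ (η / Qz z) * ((1 + 4 / z) / PiR z r) := by gcongr
      _ < (1 + ε) * ((η / Qz z) * ((1 + 4 / z) / PiR z r)) := by
          have : 0 < (η / Qz z) * ((1 + 4 / z) / PiR z r) := by positivity
          nlinarith
      _ = _ := by ring
  have hev := (hlim.eventually (gt_mem_nhds hlt)).and (eventually_ge_atTop (max X1 2))
  obtain ⟨X0, hX0⟩ := eventually_atTop.mp hev
  refine ⟨X0, fun X hX => ?_⟩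
  obtain ⟨hbr, hXm⟩ := hX0 X hX
  have hX1' : X1 ≤ X := le_trans (le_max_left _ _) hXm
  have hX2 : 2 ≤ X := le_trans (le_max_right _ _) hXm
  have hXr : (2 : ℝ) ≤ X := by exact_mod_cast hX2
  have hX0' : (0 : ℝ) < X := by linarith
  set N := ⌊(X : ℝ) ^ (3 / 5 : ℝ)⌋₊ with hN
  have hXp1 : (1 : ℝ) ≤ (X : ℝ) ^ (3 / 5 : ℝ) :=
    Real.one_le_rpow (by linarith) (by norm_num)
  have hN1 : 1 ≤ N := by
    rw [hN]
    exact Nat.le_floor (by exact_mod_cast hXp1)
  have hNle : (N : ℝ) ≤ (X : ℝ) ^ (3 / 5 : ℝ) := Nat.floor_le (by positivity)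
  have hNge : (X : ℝ) ^ (3 / 5 : ℝ) / 2 ≤ N := by
    have h1 : (X : ℝ) ^ (3 / 5 : ℝ) < N + 1 := Nat.lt_floor_add_one _
    have h2 : (1 : ℝ) ≤ N := by exact_mod_cast hN1
    linarith
  have hNpos : (0 : ℝ) < N := by exact_mod_cast hN1
  -- cardinality
  have hcard : ((FD z r X η).card : ℝ) ≤ η * X / Qz z + 1 := by
    refine le_trans ?_ (card_DD z r X hfr.1 η hη.le)
    exact_mod_cast Finset.card_le_card (Finset.filter_subset _ _)
  have hFmod : ∀ D ∈ FD z r X η, D % Qz z = r := by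
    intro D hD
    simp only [FD, DD, Finset.mem_filter] at hD
    exact hD.1.2
  have hmain := main_ineq z r hz (FD z r X η) hFmod N ((X : ℝ) ^ (7 / 10 : ℝ)) (by positivity)
    (fun m hm1 hmN hmc hms => hX1 X hX1' m hm1
      ((by exact_mod_cast hmN : (m : ℝ) ≤ N).trans hNle) hmc hms)
  -- approximation of Lone
  have hLone : ∀ D ∈ FD z r X η, Lone D ≤ ∑ n ∈ Finset.Icc 1 N, (chi D n : ℝ) / n +
      C * (2 * √2) * ((Real.log 2 + Real.log X) / (X : ℝ) ^ (1 / 10 : ℝ)) := by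
    intro D hD
    have hD' := hD
    simp only [FD, DD, Finset.mem_filter, Finset.mem_Ioc] at hD'
    obtain ⟨⟨⟨hD1, hD2⟩, -⟩, hDf⟩ := hD'
    have hDle : (D : ℝ) ≤ 2 * X := by
      have h1 : (D : ℝ) ≤ (1 + η) * X := by
        have : (D : ℝ) ≤ (⌊(1 + η) * X⌋₊ : ℝ) := by exact_mod_cast hD2
        exact this.trans (Nat.floor_le (by positivity))
      nlinarith
    have hDpos : (0 : ℝ) < D := by
      have : 0 < D := by omega
      exact_mod_cast this
    have h := (abs_le.mp (hN3 D hDf N hN1)).2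
    have h2 : C * √(D : ℝ) * Real.log D / N ≤
        C * (2 * √2) * ((Real.log 2 + Real.log X) / (X : ℝ) ^ (1 / 10 : ℝ)) := by
      have h3 : √(D : ℝ) ≤ √2 * (X : ℝ) ^ (1 / 2 : ℝ) := by
        rw [← Real.sqrt_eq_rpow, ← Real.sqrt_mul (by norm_num)]
        exact Real.sqrt_le_sqrt hDle
      have h4 : Real.log D ≤ Real.log 2 + Real.log X := by
        rw [← Real.log_mul (by norm_num) hX0'.ne']
        exact Real.log_le_log hDpos hDle
      have h5 : 0 ≤ Real.log 2 + Real.log X :=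
        add_nonneg (Real.log_nonneg (by norm_num)) (Real.log_nonneg (by linarith))
      have h6 : (X : ℝ) ^ (3 / 5 : ℝ) = (X : ℝ) ^ (1 / 2 : ℝ) * (X : ℝ) ^ (1 / 10 : ℝ) := by
        rw [← Real.rpow_add hX0']
        norm_num
      have h7 : (0 : ℝ) < (X : ℝ) ^ (1 / 2 : ℝ) := by positivity
      have h8 : (0 : ℝ) < (X : ℝ) ^ (1 / 10 : ℝ) := by positivity
      calc C * √(D : ℝ) * Real.log D / N
          ≤ C * (√2 * (X : ℝ) ^ (1 / 2 : ℝ)) * (Real.log 2 + Real.log X) /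
            ((X : ℝ) ^ (3 / 5 : ℝ) / 2) := by
            gcongr
        _ = _ := by
            rw [h6]
            field_simp
    linarith
  have hsum1 : ∑ D ∈ FD z r X η, Lone D ≤
      ∑ D ∈ FD z r X η, ∑ n ∈ Finset.Icc 1 N, (chi D n : ℝ) / n +
      (FD z r X η).card * (C * (2 * √2) * ((Real.log 2 + Real.log X) /
        (X : ℝ) ^ (1 / 10 : ℝ))) := by
    calc ∑ D ∈ FD z r X η, Lone D ≤ ∑ D ∈ FD z r X η, (∑ n ∈ Finset.Icc 1 N, (chi D n : ℝ) / n +
      C * (2 * √2) * ((Real.log 2 + Real.log X) / (X : ℝ) ^ (1 / 10 : ℝ))) :=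
          Finset.sum_le_sum hLone
      _ = _ := by rw [Finset.sum_add_distrib, Finset.sum_const, nsmul_eq_mul]
  have hE2nn : 0 ≤ C * (2 * √2) * ((Real.log 2 + Real.log X) / (X : ℝ) ^ (1 / 10 : ℝ)) := by
    have h5 : 0 ≤ Real.log 2 + Real.log X :=
      add_nonneg (Real.log_nonneg (by norm_num)) (Real.log_nonneg (by linarith))
    positivity
  have hEr := Er_nonneg z r N
  have hharm : ∑ n ∈ Finset.Icc 1 N, (1 : ℝ) / n ≤ 1 + Real.log X := by
    refine (sum_inv_le N).trans ?_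
    have hNX : (N : ℝ) ≤ X := by
      refine hNle.trans ?_
      calc (X : ℝ) ^ (3 / 5 : ℝ) ≤ (X : ℝ) ^ (1 : ℝ) :=
            Real.rpow_le_rpow_of_exponent_le (by linarith) (by norm_num)
        _ = X := Real.rpow_one _
    have := Real.log_le_log hNpos hNX
    linarith
  have hpow : (X : ℝ) ^ (7 / 10 : ℝ) = X * (1 / (X : ℝ) ^ (3 / 10 : ℝ)) := by
    rw [one_div, ← Real.rpow_neg hX0'.le]
    nth_rewrite 2 [← Real.rpow_one (X : ℝ)]
    rw [← Real.rpow_add hX0']
    norm_num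
  calc ∑ D ∈ FD z r X η, Lone D
      ≤ (X : ℝ) ^ (7 / 10 : ℝ) * ∑ n ∈ Finset.Icc 1 N, (1 : ℝ) / n +
        (FD z r X η).card * (A + Er z r N) +
        (FD z r X η).card * (C * (2 * √2) * ((Real.log 2 + Real.log X) /
        (X : ℝ) ^ (1 / 10 : ℝ))) := by linarith
    _ = (X : ℝ) ^ (7 / 10 : ℝ) * ∑ n ∈ Finset.Icc 1 N, (1 : ℝ) / n +
        (FD z r X η).card * (A + Er z r N + C * (2 * √2) * ((Real.log 2 + Real.log X) /
        (X : ℝ) ^ (1 / 10 : ℝ))) := by ring
    _ ≤ (X : ℝ) ^ (7 / 10 : ℝ) * (1 + Real.log X) +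
        (η * X / Qz z + 1) * (A + Er z r N + C * (2 * √2) * ((Real.log 2 + Real.log X) /
        (X : ℝ) ^ (1 / 10 : ℝ))) := by gcongr
    _ = X * ((1 + Real.log X) / (X : ℝ) ^ (3 / 10 : ℝ) +
      (η / Qz z + 1 / X) * (A + Er z r N + C * (2 * √2) *
      ((Real.log 2 + Real.log X) / (X : ℝ) ^ (1 / 10 : ℝ)))) := by
        rw [hpow]
        field_simp
    _ ≤ X * ((1 + ε) * (1 + 4 / z) * (η / Qz z) / PiR z r) :=
        mul_le_mul_of_nonneg_left hbr.le hX0'.le
    _ = (1 + ε) * (1 + 4 / z) * (η * X / Qz z) / PiR z r := by ring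

end Pool.Agent.H38R2.CG
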