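import Pool.Agent.H45.Lib.S8.H38R2.CG.Stubs

set_option autoImplicit false

namespace Pool.Agent.H38R2.CG.N2h

open NumberField

/-! ### The right side -/

theorem chi_one (D : ℤ) : chi D 1 = 1 := by
  simp [chi, jacobiSym.one_right]

theorem chi_mul (D : ℤ) {a b : ℕ} (ha : a ≠ 0) (hb : b ≠ 0) :
    chi D (a * b) = chi D a * chi D b := by
  have : Fact (Nat.Prime 2) := ⟨Nat.prime_two⟩
  unfold chi
  rw [padicValNat.mul ha hb]
  have h1 : 2 ^ padicValNat 2 a ∣ a := pow_padicValNat_dvd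
  have h2 : 2 ^ padicValNat 2 b ∣ b := pow_padicValNat_dvd
  have h3 : a * b / 2 ^ (padicValNat 2 a + padicValNat 2 b) =
      a / 2 ^ padicValNat 2 a * (b / 2 ^ padicValNat 2 b) := by
    rw [pow_add, Nat.mul_div_mul_comm h1 h2]
  rw [h3]
  have : NeZero (a / 2 ^ padicValNat 2 a) :=
    ⟨(Nat.div_pos (Nat.le_of_dvd (Nat.pos_of_ne_zero ha) h1) (by positivity)).ne'⟩
  have : NeZero (b / 2 ^ padicValNat 2 b) :=
    ⟨(Nat.div_pos (Nat.le_of_dvd (Nat.pos_of_ne_zero hb) h2) (by positivity)).ne'⟩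
  rw [jacobiSym.mul_right, pow_add]
  ring

theorem chi_pow (D : ℤ) {p : ℕ} (hp : p ≠ 0) (i : ℕ) : chi D (p ^ i) = chi D p ^ i := by
  induction i with
  | zero => rw [pow_zero, pow_zero, chi_one]
  | succ i ih => rw [pow_succ, chi_mul D (pow_ne_zero i hp) hp, ih, pow_succ]

theorem chi_prime (D : ℤ) {p : ℕ} (hp : p.Prime) : chi D p = 1 ∨ chi D p = 0 ∨ chi D p = -1 := by
  rcases eq_or_ne p 2 with rfl | h2
  · have : chi D 2 = chi2 D := by
      unfold chi
      have : Fact (Nat.Prime 2) := ⟨Nat.prime_two⟩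
      rw [padicValNat_self]
      simp [jacobiSym.one_right]
    rw [this]
    unfold chi2
    split_ifs <;> simp
  · have : chi D p = jacobiSym D p := by
      unfold chi
      have h0 : padicValNat 2 p = 0 := by
        apply padicValNat.eq_zero_of_not_dvd
        intro h
        exact h2 ((Nat.prime_dvd_prime_iff_eq Nat.prime_two hp).1 h).symm
      rw [h0]
      simp
    rw [this]
    rcases jacobiSym.trichotomy D p with h | h | h
    · right; left; exact h
    · left; exact h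
    · right; right; exact h

/-- the arithmetic function -/
def cf (D : ℤ) : ArithmeticFunction ℤ := ⟨fun n => if n = 0 then 0 else chi D n, by simp⟩

theorem cf_apply (D : ℤ) {n : ℕ} (hn : n ≠ 0) : cf D n = chi D n := by
  simp [cf, hn]

theorem cf_mult (D : ℤ) : (cf D).IsMultiplicative := by
  refine ⟨by rw [cf_apply D one_ne_zero, chi_one], ?_⟩
  intro a b _
  rcases eq_or_ne a 0 with rfl | ha
  · simp
  rcases eq_or_ne b 0 with rfl | hb
  · simp
  rw [cf_apply D (mul_ne_zero ha hb), cf_apply D ha, cf_apply D hb, chi_mul D ha hb]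

theorem sum_eq (D : ℤ) {n : ℕ} : (cf D * (ArithmeticFunction.zeta : ArithmeticFunction ℤ)) n =
    ∑ m ∈ n.divisors, chi D m := by
  rw [ArithmeticFunction.coe_mul_zeta_apply]
  refine Finset.sum_congr rfl fun m hm => ?_
  exact cf_apply D (Nat.pos_of_mem_divisors hm).ne'

theorem sum_mul (D : ℤ) {a b : ℕ} (hab : a.Coprime b) :
    ∑ m ∈ (a * b).divisors, chi D m = (∑ m ∈ a.divisors, chi D m) * ∑ m ∈ b.divisors, chi D m := by
  rw [← sum_eq, ← sum_eq, ← sum_eq]
  exact ((cf_mult D).mul ArithmeticFunction.isMultiplicative_zeta.natCast).map_mul_of_coprime hab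

theorem sum_pow (D : ℤ) {p : ℕ} (hp : p.Prime) (e : ℕ) :
    ∑ m ∈ (p ^ e).divisors, chi D m = ∑ i ∈ Finset.range (e + 1), chi D p ^ i := by
  rw [Nat.sum_divisors_prime_pow hp]
  refine Finset.sum_congr rfl fun i _ => chi_pow D hp.ne_zero i

/-! ### The left side -/

section ideals
variable (K : Type) [Field K] [NumberField K]

theorem norm_nat (n : ℕ) : Ideal.absNorm (Ideal.span {(n : 𝓞 K)}) =
    n ^ Module.finrank ℤ (𝓞 K) := by
  rw [Ideal.absNorm_span_singleton]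
  have h : ((n : ℤ) : 𝓞 K) = algebraMap ℤ (𝓞 K) (n : ℤ) := by simp
  have h2 : (n : 𝓞 K) = algebraMap ℤ (𝓞 K) (n : ℤ) := by simp
  rw [h2, Algebra.norm_algebraMap, Int.natAbs_pow, Int.natAbs_natCast]

theorem coprime_of_norm {I J : Ideal (𝓞 K)} (h : (Ideal.absNorm I).Coprime (Ideal.absNorm J)) :
    IsCoprime I J := by
  rw [Ideal.isCoprime_iff_exists]
  have h1 := Ideal.absNorm_mem I
  have h2 := Ideal.absNorm_mem J
  have h3 : IsCoprime ((Ideal.absNorm I : ℕ) : ℤ) ((Ideal.absNorm J : ℕ) : ℤ) :=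
    Nat.isCoprime_iff_coprime.2 h
  obtain ⟨u, v, huv⟩ := h3
  refine ⟨(u : 𝓞 K) * (Ideal.absNorm I : ℕ), Ideal.mul_mem_left _ _ h1,
    (v : 𝓞 K) * (Ideal.absNorm J : ℕ), Ideal.mul_mem_left _ _ h2, ?_⟩
  have := congrArg (Int.cast : ℤ → 𝓞 K) huv
  push_cast at this
  exact this

/-- number of ideals of norm `n` -/
noncomputable def rr (n : ℕ) : ℕ := Nat.card {I : Ideal (𝓞 K) // Ideal.absNorm I = n}

theorem rr_one : rr K 1 = 1 := by
  unfold rr
  rw [Nat.card_eq_one_iff_unique]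
  refine ⟨⟨?_⟩, ⟨⟨⊤, Ideal.absNorm_top⟩⟩⟩
  rintro ⟨I, hI⟩ ⟨J, hJ⟩
  rw [Ideal.absNorm_eq_one_iff] at hI hJ
  subst hI hJ
  rfl

theorem rr_mul {a b : ℕ} (ha : a ≠ 0) (hb : b ≠ 0) (hab : a.Coprime b) :
    rr K (a * b) = rr K a * rr K b := by
  unfold rr
  rw [← Nat.card_prod]
  symm
  apply Nat.card_congr
  refine Equiv.ofBijective (fun x => ⟨x.1.1 * x.2.1, by rw [map_mul, x.1.2, x.2.2]⟩) ⟨?_, ?_⟩
  · rintro ⟨⟨I, hI⟩, ⟨J, hJ⟩⟩ ⟨⟨I', hI'⟩, ⟨J', hJ'⟩⟩ h
    have h0 : I * J = I' * J' := congrArg Subtype.val h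
    have c1 : IsCoprime I J' := coprime_of_norm K (by rw [hI, hJ']; exact hab)
    have c2 : IsCoprime I' J := coprime_of_norm K (by rw [hI', hJ]; exact hab)
    have d1 : I ∣ I' := c1.dvd_of_dvd_mul_right (h0 ▸ dvd_mul_right I J)
    have d2 : I' ∣ I := c2.dvd_of_dvd_mul_right (h0 ▸ dvd_mul_right I' J')
    have d3 : J ∣ J' := c2.symm.dvd_of_dvd_mul_left (h0 ▸ dvd_mul_left J I)
    have d4 : J' ∣ J := c1.symm.dvd_of_dvd_mul_left (h0 ▸ dvd_mul_left J' I')
    have e1 : I = I' := le_antisymm (Ideal.dvd_iff_le.1 d2) (Ideal.dvd_iff_le.1 d1)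
    have e2 : J = J' := le_antisymm (Ideal.dvd_iff_le.1 d4) (Ideal.dvd_iff_le.1 d3)
    subst e1 e2
    rfl
  · rintro ⟨L, hL⟩
    set A := Ideal.span {(a : 𝓞 K)} with hA
    set B := Ideal.span {(b : 𝓞 K)} with hB
    have hcop : IsCoprime A B := by
      apply coprime_of_norm K
      rw [norm_nat, norm_nat]
      exact Nat.Coprime.pow _ _ hab
    have hmem : (a : 𝓞 K) * b ∈ L := by
      have := Ideal.absNorm_mem L
      rw [hL] at this
      exact_mod_cast this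
    have hprod : (L ⊔ A) * (L ⊔ B) = L := by
      apply le_antisymm
      · rw [Ideal.sup_mul, Ideal.mul_sup, Ideal.mul_sup]
        refine sup_le (sup_le Ideal.mul_le_left Ideal.mul_le_left)
          (sup_le Ideal.mul_le_right ?_)
        rw [hA, hB, Ideal.span_singleton_mul_span_singleton, Ideal.span_singleton_le_iff_mem]
        exact hmem
      · intro x hx
        obtain ⟨i, hi, j, hj, hij⟩ := Ideal.isCoprime_iff_exists.1 hcop
        have h1 : i * x ∈ (L ⊔ A) * (L ⊔ B) :=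
          Ideal.mul_mem_mul (Ideal.mem_sup_right hi) (Ideal.mem_sup_left hx)
        have h2 : x * j ∈ (L ⊔ A) * (L ⊔ B) :=
          Ideal.mul_mem_mul (Ideal.mem_sup_left hx) (Ideal.mem_sup_right hj)
        have h3 : x = i * x + x * j := by
          rw [mul_comm x j, ← add_mul, hij, one_mul]
        rw [h3]
        exact Ideal.add_mem _ h1 h2
    have hn : Ideal.absNorm (L ⊔ A) * Ideal.absNorm (L ⊔ B) = a * b := by
      rw [← map_mul, hprod, hL]
    have g1 : Ideal.absNorm (L ⊔ A) ∣ a ^ Module.finrank ℤ (𝓞 K) := by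
      rw [← norm_nat]
      exact Ideal.absNorm_dvd_absNorm_of_le le_sup_right
    have g2 : Ideal.absNorm (L ⊔ B) ∣ b ^ Module.finrank ℤ (𝓞 K) := by
      rw [← norm_nat]
      exact Ideal.absNorm_dvd_absNorm_of_le le_sup_right
    have k1 : (Ideal.absNorm (L ⊔ A)).Coprime b :=
      Nat.Coprime.coprime_dvd_left g1 (Nat.Coprime.pow_left _ hab)
    have k2 : (Ideal.absNorm (L ⊔ B)).Coprime a :=
      Nat.Coprime.coprime_dvd_left g2 (Nat.Coprime.pow_left _ hab.symm)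
    have l1 : Ideal.absNorm (L ⊔ A) ∣ a :=
      k1.dvd_of_dvd_mul_right (hn ▸ dvd_mul_right _ _)
    have l2 : Ideal.absNorm (L ⊔ B) ∣ b :=
      k2.dvd_of_dvd_mul_left (hn ▸ dvd_mul_left _ _)
    have m1 : a ∣ Ideal.absNorm (L ⊔ A) :=
      k2.symm.dvd_of_dvd_mul_right (hn ▸ dvd_mul_right a b)
    have m2 : b ∣ Ideal.absNorm (L ⊔ B) :=
      k1.symm.dvd_of_dvd_mul_left (hn ▸ dvd_mul_left b a)
    exact ⟨⟨⟨L ⊔ A, Nat.dvd_antisymm l1 m1⟩, ⟨L ⊔ B, Nat.dvd_antisymm l2 m2⟩⟩,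
      Subtype.ext hprod⟩

theorem dvd_pow_of_norm {p e : ℕ} {I : Ideal (𝓞 K)} (hI : Ideal.absNorm I = p ^ e) :
    I ∣ Ideal.span {(p : 𝓞 K)} ^ e := by
  rw [Ideal.dvd_iff_le, Ideal.span_singleton_pow, Ideal.span_singleton_le_iff_mem]
  have := Ideal.absNorm_mem I
  rw [hI] at this
  exact_mod_cast this

theorem ne_bot_of_norm {p : ℕ} (hp : p.Prime) {P : Ideal (𝓞 K)} (h : Ideal.absNorm P = p) :
    P ≠ ⊥ := by
  rintro rfl
  rw [Ideal.absNorm_bot] at h
  exact hp.ne_zero h.symm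

theorem eq_pow_of_dvd {P I : Ideal (𝓞 K)} (hP : Prime P) {k : ℕ} (h : I ∣ P ^ k) :
    ∃ i ≤ k, I = P ^ i := by
  obtain ⟨i, hi, ha⟩ := (dvd_prime_pow hP k).1 h
  exact ⟨i, hi, associated_iff_eq.1 ha⟩

/-- split primes -/
theorem rr_split {p : ℕ} (hp : p.Prime) (e : ℕ) {P P' : Ideal (𝓞 K)} (hne : P ≠ P')
    (hP : P.IsPrime) (hP' : P'.IsPrime) (h1 : Ideal.absNorm P = p) (h2 : Ideal.absNorm P' = p)
    (h3 : P * P' = Ideal.span {(p : 𝓞 K)}) : rr K (p ^ e) = e + 1 := by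
  have b1 := ne_bot_of_norm K hp h1
  have b2 := ne_bot_of_norm K hp h2
  have q1 : Prime P := Ideal.prime_of_isPrime b1 hP
  have q2 : Prime P' := Ideal.prime_of_isPrime b2 hP'
  have : P.IsMaximal := hP.isMaximal b1
  have : P'.IsMaximal := hP'.isMaximal b2
  have hc : IsCoprime P P' := Ideal.isCoprime_of_isMaximal hne
  have key : Nat.card (Fin (e + 1)) = rr K (p ^ e) := by
    unfold rr
    apply Nat.card_congr
    refine Equiv.ofBijective (fun i => ⟨P ^ (i : ℕ) * P' ^ (e - (i : ℕ)), ?_⟩) ⟨?_, ?_⟩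
    · rw [map_mul, map_pow, map_pow, h1, h2, ← pow_add]
      congr 1
      have := i.2
      omega
    · have aux : ∀ i j : Fin (e + 1), P ^ (i : ℕ) * P' ^ (e - (i : ℕ)) =
          P ^ (j : ℕ) * P' ^ (e - (j : ℕ)) → (i : ℕ) ≤ j := by
        intro i j h
        have d1 : P ^ (i : ℕ) ∣ P ^ (j : ℕ) * P' ^ (e - (j : ℕ)) := h ▸ dvd_mul_right _ _
        have d2 : P ^ (i : ℕ) ∣ P ^ (j : ℕ) := (hc.pow).dvd_of_dvd_mul_right d1
        have d3 := Ideal.absNorm_dvd_absNorm_of_le (Ideal.dvd_iff_le.1 d2)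
        rw [map_pow, map_pow, h1] at d3
        exact (Nat.pow_dvd_pow_iff_le_right hp.one_lt).1 d3
      intro i j h
      have h' := congrArg Subtype.val h
      exact Fin.ext (le_antisymm (aux i j h') (aux j i h'.symm))
    · rintro ⟨I, hI⟩
      have d := dvd_pow_of_norm K hI
      rw [← h3, mul_pow] at d
      obtain ⟨A, B, hA, hB, rfl⟩ := exists_dvd_and_dvd_of_dvd_mul d
      obtain ⟨i, hi, rfl⟩ := eq_pow_of_dvd K q1 hA
      obtain ⟨j, hj, rfl⟩ := eq_pow_of_dvd K q2 hB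
      rw [map_mul, map_pow, map_pow, h1, h2, ← pow_add] at hI
      have hij := Nat.pow_right_injective hp.two_le hI
      refine ⟨⟨i, by omega⟩, Subtype.ext ?_⟩
      simp only
      congr 2
      omega
  rw [← key]
  simp

/-- ramified primes -/
theorem rr_ram {p : ℕ} (hp : p.Prime) (e : ℕ) {P : Ideal (𝓞 K)}
    (hP : P.IsPrime) (h1 : Ideal.absNorm P = p)
    (h3 : P ^ 2 = Ideal.span {(p : 𝓞 K)}) : rr K (p ^ e) = 1 := by
  have b1 := ne_bot_of_norm K hp h1
  have q1 : Prime P := Ideal.prime_of_isPrime b1 hP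
  unfold rr
  rw [Nat.card_eq_one_iff_unique]
  refine ⟨⟨?_⟩, ⟨⟨P ^ e, by rw [map_pow, h1]⟩⟩⟩
  have aux : ∀ I : Ideal (𝓞 K), Ideal.absNorm I = p ^ e → I = P ^ e := by
    intro I hI
    have d := dvd_pow_of_norm K hI
    rw [← h3, ← pow_mul] at d
    obtain ⟨i, -, rfl⟩ := eq_pow_of_dvd K q1 d
    rw [map_pow, h1] at hI
    rw [Nat.pow_right_injective hp.two_le hI]
  rintro ⟨I, hI⟩ ⟨J, hJ⟩
  exact Subtype.ext ((aux I hI).trans (aux J hJ).symm)

/-- inert primes -/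
theorem rr_inert {p : ℕ} (hp : p.Prime) (e : ℕ) (h2 : Module.finrank ℤ (𝓞 K) = 2)
    (hP : (Ideal.span {(p : 𝓞 K)}).IsPrime) : rr K (p ^ e) = if Even e then 1 else 0 := by
  have h1 : Ideal.absNorm (Ideal.span {(p : 𝓞 K)}) = p ^ 2 := by rw [norm_nat, h2]
  have b1 : Ideal.span {(p : 𝓞 K)} ≠ ⊥ := by
    intro h
    rw [h, Ideal.absNorm_bot] at h1
    exact (pow_pos hp.pos 2).ne h1
  have q1 := Ideal.prime_of_isPrime b1 hP
  have aux : ∀ I : Ideal (𝓞 K), Ideal.absNorm I = p ^ e →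
      ∃ i, I = Ideal.span {(p : 𝓞 K)} ^ i ∧ 2 * i = e := by
    intro I hI
    obtain ⟨i, -, rfl⟩ := eq_pow_of_dvd K q1 (dvd_pow_of_norm K hI)
    rw [map_pow, h1, ← pow_mul] at hI
    exact ⟨i, rfl, Nat.pow_right_injective hp.two_le hI⟩
  unfold rr
  split_ifs with he
  · rw [Nat.card_eq_one_iff_unique]
    obtain ⟨k, hk⟩ := he
    refine ⟨⟨?_⟩, ⟨⟨Ideal.span {(p : 𝓞 K)} ^ k, by
      rw [map_pow, h1, ← pow_mul]; congr 1; omega⟩⟩⟩
    rintro ⟨I, hI⟩ ⟨J, hJ⟩
    obtain ⟨i, hi, hi2⟩ := aux I hI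
    obtain ⟨j, hj, hj2⟩ := aux J hJ
    have : i = j := by omega
    exact Subtype.ext (show I = J by rw [hi, hj, this])
  · have : IsEmpty {I : Ideal (𝓞 K) // Ideal.absNorm I = p ^ e} := by
      refine ⟨?_⟩
      rintro ⟨I, hI⟩
      obtain ⟨i, hi, hi2⟩ := aux I hI
      exact he ⟨i, by omega⟩
    exact Nat.card_of_isEmpty

end ideals

end Pool.Agent.H38R2.CG.N2h

namespace Pool.Agent.H38R2.CG

open NumberField

theorem T_N2 : P_SPL → P_N2 := by
  intro hS K _ _ D hD hK hdisc n hn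
  have h2 : Module.finrank ℤ (𝓞 K) = 2 := by rw [RingOfIntegers.rank, hK]
  change ((N2h.rr K n : ℕ) : ℤ) = _
  induction n using Nat.recOnPosPrimePosCoprime with
  | zero => omega
  | one => simp [N2h.rr_one, N2h.chi_one]
  | prime_pow p e hp he =>
    rw [N2h.sum_pow D hp]
    obtain ⟨s1, s2, s3⟩ := hS K D hD hK hdisc p hp
    rcases N2h.chi_prime D hp with h | h | h
    · obtain ⟨P, P', hne, hP, hP', n1, n2, n3⟩ := s1 h
      rw [N2h.rr_split K hp e hne hP hP' n1 n2 n3, h]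
      simp
    · obtain ⟨P, hP, n1, n3⟩ := s2 h
      rw [N2h.rr_ram K hp e hP n1 n3, h, Finset.sum_range_succ']
      simp
    · rw [N2h.rr_inert K hp e h2 (s3 h), h]
      have : ∀ e : ℕ, (((if Even e then 1 else 0 : ℕ)) : ℤ) =
          ∑ i ∈ Finset.range (e + 1), (-1 : ℤ) ^ i := by
        intro e
        induction e with
        | zero => simp
        | succ e ih =>
          rw [Finset.sum_range_succ, ← ih]
          rcases Nat.even_or_odd e with he | he
          · have h1 : ¬ Even (e + 1) := by rw [Nat.not_even_iff_odd]; exact he.add_one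
            rw [if_pos he, if_neg h1, Odd.neg_one_pow he.add_one]
            norm_num
          · have h1 : ¬ Even e := by rw [Nat.not_even_iff_odd]; exact he
            have h2 : Even (e + 1) := he.add_one
            rw [if_pos h2, if_neg h1, Even.neg_one_pow h2]
            norm_num
      exact this e
  | coprime a b ha hb hab iha ihb =>
    rw [N2h.rr_mul K (by omega) (by omega) hab, N2h.sum_mul D hab, ← iha (by omega),
      ← ihb (by omega)]
    push_cast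
    rfl

end Pool.Agent.H38R2.CG
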