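import Pool.Agent.H45.Lib.S8.H38R2.CG.Stubs

set_option autoImplicit false

namespace Pool.Agent.H38R2.CG

open Finset Filter NumberField
open scoped Classical

namespace N3h

open scoped nonZeroDivisors

variable (K : Type) [Field K] [NumberField K]

/-- the common limit of the classes -/
noncomputable def kap : ℝ :=
  (2 ^ InfinitePlace.nrRealPlaces K * (2 * Real.pi) ^ InfinitePlace.nrComplexPlaces K *
    Units.regulator K) / (Units.torsionOrder K * Real.sqrt |discr K|)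

theorem kap_pos : 0 < kap K := by
  unfold kap
  have h1 : 0 < Units.regulator K := Units.regulator_pos K
  have h2 : 0 < (Units.torsionOrder K : ℝ) := by
    exact_mod_cast Nat.pos_of_ne_zero (Units.torsionOrder_ne_zero K)
  have h3 : 0 < Real.sqrt |(discr K : ℝ)| := by
    apply Real.sqrt_pos.2
    have : (discr K : ℝ) ≠ 0 := by exact_mod_cast discr_ne_zero K
    positivity
  have hpi := Real.pi_pos
  have h3' : 0 < Real.sqrt ((|discr K| : ℤ) : ℝ) := by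
    rw [Int.cast_abs]; exact h3
  positivity

theorem cls (C : ClassGroup (𝓞 K)) :
    Tendsto (fun N : ℕ => (Nat.card {I : nonZeroDivisors (Ideal (𝓞 K)) //
      Ideal.absNorm (I : Ideal (𝓞 K)) ≤ N ∧ ClassGroup.mk0 I = C} : ℝ) / N) atTop
      (nhds (kap K)) := by
  have h := (Ideal.tendsto_norm_le_and_mk_eq_div_atTop K C).comp
    (tendsto_natCast_atTop_atTop (R := ℝ))
  refine h.congr ?_
  intro N
  simp only [Function.comp, Nat.cast_le]

theorem fin_le (N : ℕ) : Finite {I : nonZeroDivisors (Ideal (𝓞 K)) //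
      Ideal.absNorm (I : Ideal (𝓞 K)) ≤ N} :=
  (Ideal.finite_setOfPred_absNorm_le₀ N)

theorem fin_cls (N : ℕ) (C : ClassGroup (𝓞 K)) : Finite {I : nonZeroDivisors (Ideal (𝓞 K)) //
      Ideal.absNorm (I : Ideal (𝓞 K)) ≤ N ∧ ClassGroup.mk0 I = C} :=
  (Ideal.finite_setOfPred_absNorm_le₀ N).subset (fun _ h => h.1)

theorem card_H (H : Subgroup (ClassGroup (𝓞 K))) (N : ℕ) :
    Nat.card {I : nonZeroDivisors (Ideal (𝓞 K)) //
      Ideal.absNorm (I : Ideal (𝓞 K)) ≤ N ∧ ClassGroup.mk0 I ∈ H} =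
    ∑ C : H, Nat.card {I : nonZeroDivisors (Ideal (𝓞 K)) //
      Ideal.absNorm (I : Ideal (𝓞 K)) ≤ N ∧ ClassGroup.mk0 I = C.1} := by
  have hf : ∀ C : H, Finite {I : nonZeroDivisors (Ideal (𝓞 K)) //
      Ideal.absNorm (I : Ideal (𝓞 K)) ≤ N ∧ ClassGroup.mk0 I = C.1} := fun C => fin_cls K N C.1
  rw [← Nat.card_sigma]
  refine Nat.card_congr ⟨fun I => ⟨⟨ClassGroup.mk0 I.1, I.2.2⟩, ⟨I.1, I.2.1, rfl⟩⟩,
    fun p => ⟨p.2.1, p.2.2.1, by rw [p.2.2.2]; exact p.1.2⟩, ?_, ?_⟩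
  · intro I; rfl
  · rintro ⟨⟨C, hC⟩, ⟨I, hI, hIC⟩⟩
    simp only at hIC
    subst hIC
    rfl

theorem lim_H (H : Subgroup (ClassGroup (𝓞 K))) :
    Tendsto (fun N : ℕ => (Nat.card {I : nonZeroDivisors (Ideal (𝓞 K)) //
      Ideal.absNorm (I : Ideal (𝓞 K)) ≤ N ∧ ClassGroup.mk0 I ∈ H} : ℝ) / N) atTop
      (nhds ((Nat.card H : ℝ) * kap K)) := by
  have h := tendsto_finsetSum (Finset.univ : Finset H) (fun C _ => cls K C.1)
  rw [Finset.sum_const, Finset.card_univ, nsmul_eq_mul, ← Nat.card_eq_fintype_card] at h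
  refine h.congr ?_
  intro N
  rw [card_H, Nat.cast_sum, Finset.sum_div]

theorem card_all (N : ℕ) :
    Nat.card {I : nonZeroDivisors (Ideal (𝓞 K)) // Ideal.absNorm (I : Ideal (𝓞 K)) ≤ N} =
    ∑ n ∈ Finset.Icc 1 N, Nat.card {I : Ideal (𝓞 K) // Ideal.absNorm I = n} := by
  have hf : ∀ n : Finset.Icc 1 N, Finite {I : Ideal (𝓞 K) // Ideal.absNorm I = n.1} :=
    fun n => Ideal.finite_setOfPred_absNorm_eq n.1
  rw [← Finset.sum_coe_sort (Finset.Icc 1 N)
    (fun n => Nat.card {I : Ideal (𝓞 K) // Ideal.absNorm I = n}), ← Nat.card_sigma]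
  refine Nat.card_congr ⟨fun I => ⟨⟨Ideal.absNorm (I.1 : Ideal (𝓞 K)), ?_⟩, ⟨I.1.1, rfl⟩⟩,
    fun p => ⟨⟨p.2.1, ?_⟩, ?_⟩, ?_, ?_⟩
  · rw [Finset.mem_Icc]
    exact ⟨Nat.one_le_iff_ne_zero.2 (Ideal.absNorm_ne_zero_of_nonZeroDivisors I.1), I.2⟩
  · rw [mem_nonZeroDivisors_iff_ne_zero]
    intro h0
    have h1 := p.2.2
    rw [h0] at h1
    have h2 := (Finset.mem_Icc.1 p.1.2).1
    have h3 : Ideal.absNorm (0 : Ideal (𝓞 K)) = 0 := by
      rw [Ideal.zero_eq_bot, Ideal.absNorm_bot]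
    omega
  · have h1 := p.2.2
    have h2 := (Finset.mem_Icc.1 p.1.2).2
    simp only
    omega
  · intro I; rfl
  · rintro ⟨⟨n, hn⟩, ⟨I, hI⟩⟩
    simp only at hI
    subst hI
    rfl

end N3h

theorem T_N3 : P_N2 → P_N3b → P_N3 := by
  intro hN2 hN3b K _ _ D hD hfr hdisc
  have hall : Tendsto (fun N : ℕ => (Nat.card {I : nonZeroDivisors (Ideal (𝓞 K)) //
      Ideal.absNorm (I : Ideal (𝓞 K)) ≤ N} : ℝ) / N) atTop (nhds (Lone D)) := by
    refine (hN3b D hD).congr ?_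
    intro N
    rw [N3h.card_all, Nat.cast_sum]
    congr 1
    apply Finset.sum_congr rfl
    intro n hn
    have h := hN2 K D hD hfr hdisc n (Finset.mem_Icc.1 hn).1
    have h' : ((Nat.card {I : Ideal (𝓞 K) // Ideal.absNorm I = n} : ℤ) : ℝ) =
      ((∑ m ∈ n.divisors, chi D m : ℤ) : ℝ) := by rw [h]
    rw [Int.cast_sum] at h'
    rw [← h', Int.cast_natCast]
  have hnn : 0 ≤ Lone D := ge_of_tendsto' hall (fun N => by positivity)
  refine ⟨hnn, hall, ?_⟩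
  have htop := N3h.lim_H K ⊤
  have htop' : Tendsto (fun N : ℕ => (Nat.card {I : nonZeroDivisors (Ideal (𝓞 K)) //
      Ideal.absNorm (I : Ideal (𝓞 K)) ≤ N} : ℝ) / N) atTop
      (nhds ((Nat.card (⊤ : Subgroup (ClassGroup (𝓞 K))) : ℝ) * N3h.kap K)) := by
    refine htop.congr ?_
    intro N
    simp only [Subgroup.mem_top, and_true]
  have heq : Lone D = (Nat.card (⊤ : Subgroup (ClassGroup (𝓞 K))) : ℝ) * N3h.kap K :=
    tendsto_nhds_unique hall htop'
  intro H hH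
  refine ⟨(Nat.card H : ℝ) * N3h.kap K, ?_, N3h.lim_H K H⟩
  have hk := N3h.kap_pos K
  have hidx : 2 * Nat.card H ≤ Nat.card (⊤ : Subgroup (ClassGroup (𝓞 K))) := by
    rw [Subgroup.card_top, ← Subgroup.card_mul_index H]
    have h1 : H.index ≠ 1 := fun h => hH (Subgroup.index_eq_one.1 h)
    have h0 : H.index ≠ 0 := Subgroup.index_ne_zero_of_finite
    have h2 : 2 ≤ H.index := by omega
    calc 2 * Nat.card H = Nat.card H * 2 := by ring
      _ ≤ Nat.card H * H.index := Nat.mul_le_mul_left _ h2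
  have hidx' : 2 * (Nat.card H : ℝ) ≤ (Nat.card (⊤ : Subgroup (ClassGroup (𝓞 K))) : ℝ) := by
    exact_mod_cast hidx
  rw [heq]
  nlinarith

end Pool.Agent.H38R2.CG
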