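import Mathlib
import Pool.Agent.H45.Lib.S8.H38R2.CG.Stubs

/-!
# N3a: rate of convergence of `L(1, χ_D)`
-/

set_option autoImplicit false

namespace Pool.Agent.H38R2.CG

open Finset Filter
open scoped Classical

namespace N3ah

/-- Abel summation. -/
theorem abel (a : ℕ → ℝ) (B : ℝ) (N : ℕ) (hB : 0 ≤ B)
    (h : ∀ M, |∑ n ∈ Ioc N M, a n| ≤ B) (M : ℕ) (hM : N ≤ M) :
    |∑ n ∈ Ioc N M, a n / n - (∑ n ∈ Ioc N M, a n) / ((M : ℝ) + 1)| ≤
      B * (1 / ((N : ℝ) + 1) - 1 / ((M : ℝ) + 1)) := by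
  induction M, hM using Nat.le_induction with
  | base => simp
  | succ M hM ih =>
    have hM0 : (0 : ℝ) < (M : ℝ) + 1 := by positivity
    have hM1 : (0 : ℝ) < (M : ℝ) + 1 + 1 := by positivity
    have e1 : ∑ n ∈ Ioc N (M + 1), a n / n = ∑ n ∈ Ioc N M, a n / n + a (M + 1) / ((M : ℝ) + 1) := by
      rw [Finset.sum_Ioc_succ_top hM]
      push_cast
      rfl
    have e2 : ∑ n ∈ Ioc N (M + 1), a n = ∑ n ∈ Ioc N M, a n + a (M + 1) := by
      rw [Finset.sum_Ioc_succ_top hM]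
    have h3 := h (M + 1)
    have e3 : ∑ n ∈ Ioc N (M + 1), a n / n - (∑ n ∈ Ioc N (M + 1), a n) / (((M + 1 : ℕ) : ℝ) + 1) =
        (∑ n ∈ Ioc N M, a n / n - (∑ n ∈ Ioc N M, a n) / ((M : ℝ) + 1)) +
        (∑ n ∈ Ioc N (M + 1), a n) * (1 / ((M : ℝ) + 1) - 1 / ((M : ℝ) + 1 + 1)) := by
      rw [e1, e2]
      push_cast
      field_simp
      ring
    have h4 : 0 ≤ 1 / ((M : ℝ) + 1) - 1 / ((M : ℝ) + 1 + 1) := by
      rw [sub_nonneg]
      exact one_div_le_one_div_of_le hM0 (by linarith)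
    rw [e3]
    refine (abs_add_le _ _).trans ?_
    rw [abs_mul, abs_of_nonneg h4]
    have h5 := mul_le_mul_of_nonneg_right h3 h4
    push_cast
    linarith

theorem tail (a : ℕ → ℝ) (B : ℝ) (hB : 0 ≤ B) (h : ∀ N M, |∑ n ∈ Ioc N M, a n| ≤ B)
    (N M : ℕ) (hM : N ≤ M) :
    |∑ n ∈ Icc 1 M, a n / n - ∑ n ∈ Icc 1 N, a n / n| ≤ B / ((N : ℝ) + 1) := by
  have h1 := abel a B N hB (h N) M hM
  have h2 := h N M
  have hM0 : (0 : ℝ) < (M : ℝ) + 1 := by positivity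
  have e : ∑ n ∈ Icc 1 M, a n / n - ∑ n ∈ Icc 1 N, a n / n = ∑ n ∈ Ioc N M, a n / n := by
    have : ∑ n ∈ Icc 1 M, a n / n = ∑ n ∈ Icc 1 N, a n / n + ∑ n ∈ Ioc N M, a n / n := by
      have e0 : ∀ K : ℕ, Icc 1 K = Ioc 0 K := by
        intro K
        ext x
        simp only [mem_Icc, mem_Ioc]
        omega
      rw [e0, e0]
      exact (Finset.sum_Ioc_consecutive _ (Nat.zero_le N) hM).symm
    rw [this]
    ring
  rw [e]
  have e5 : ∑ n ∈ Ioc N M, a n / n = (∑ n ∈ Ioc N M, a n / n -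
      (∑ n ∈ Ioc N M, a n) / ((M : ℝ) + 1)) + (∑ n ∈ Ioc N M, a n) / ((M : ℝ) + 1) := by ring
  rw [e5]
  refine (abs_add_le _ _).trans ?_
  have h6 : |(∑ n ∈ Ioc N M, a n) / ((M : ℝ) + 1)| ≤ B / ((M : ℝ) + 1) := by
    rw [abs_div, abs_of_pos hM0]
    exact div_le_div_of_nonneg_right h2 hM0.le
  have h7 : B * (1 / ((N : ℝ) + 1) - 1 / ((M : ℝ) + 1)) = B / ((N : ℝ) + 1) - B / ((M : ℝ) + 1) := by
    ring
  linarith

end N3ah

open N3ah in
theorem T_N3a : P_KR → P_PV → P_N3a := by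
  rintro hKR ⟨C, hC, hPV⟩
  refine ⟨C, hC, ?_⟩
  intro D hD N hN
  obtain ⟨χ, hχ, hχn⟩ := hKR D hD
  have hD1 : 2 ≤ D := hD.1
  have hlog : 0 ≤ Real.log D := Real.log_natCast_nonneg D
  have hB : 0 ≤ C * √(D : ℝ) * Real.log D := by positivity
  have hsum : ∀ a b : ℕ, |∑ n ∈ Ioc a b, (chi D n : ℝ)| ≤ C * √(D : ℝ) * Real.log D := by
    intro a b
    have h1 := hPV D χ hD1 hχ a b
    have e : ∑ n ∈ Ioc a b, χ (n : ZMod D) = ((∑ n ∈ Ioc a b, (chi D n : ℝ) : ℝ) : ℂ) := by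
      push_cast
      refine Finset.sum_congr rfl ?_
      intro n hn
      exact hχn n (by
        have := (Finset.mem_Ioc.1 hn).1
        omega)
    rw [e, Complex.norm_real, Real.norm_eq_abs] at h1
    exact h1
  have htail := tail (fun n => (chi D n : ℝ)) _ hB hsum
  have hlim0 : Tendsto (fun n : ℕ => 2 * ((C * √(D : ℝ) * Real.log D) / ((n : ℝ) + 1))) atTop
      (nhds 0) := by
    have h1 := tendsto_one_div_add_atTop_nhds_zero_nat (𝕜 := ℝ)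
    have h2 := h1.const_mul (2 * (C * √(D : ℝ) * Real.log D))
    rw [mul_zero] at h2
    refine h2.congr ?_
    intro n
    ring
  have hcau : CauchySeq (fun N : ℕ => ∑ n ∈ Icc 1 N, (chi D n : ℝ) / n) := by
    refine cauchySeq_of_le_tendsto_0 _ ?_ hlim0
    intro n m K hn hm
    have h1 := htail K n hn
    have h2 := htail K m hm
    rw [Real.dist_eq]
    have e : ∑ n ∈ Icc 1 n, (chi D n : ℝ) / n - ∑ n ∈ Icc 1 m, (chi D n : ℝ) / n =
        (∑ n ∈ Icc 1 n, (chi D n : ℝ) / n - ∑ n ∈ Icc 1 K, (chi D n : ℝ) / n) -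
        (∑ n ∈ Icc 1 m, (chi D n : ℝ) / n - ∑ n ∈ Icc 1 K, (chi D n : ℝ) / n) := by ring
    rw [e]
    refine (abs_sub _ _).trans ?_
    linarith
  obtain ⟨L, hL⟩ := cauchySeq_tendsto_of_complete hcau
  have hLone : Lone D = L := hL.limUnder_eq
  rw [hLone]
  have h3 : Tendsto (fun M : ℕ => |∑ n ∈ Icc 1 M, (chi D n : ℝ) / n -
      ∑ n ∈ Icc 1 N, (chi D n : ℝ) / n|) atTop
      (nhds |L - ∑ n ∈ Icc 1 N, (chi D n : ℝ) / n|) := (hL.sub_const _).abs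
  have h4 : |L - ∑ n ∈ Icc 1 N, (chi D n : ℝ) / n| ≤
      (C * √(D : ℝ) * Real.log D) / ((N : ℝ) + 1) := by
    refine le_of_tendsto h3 ?_
    filter_upwards [eventually_ge_atTop N] with M hM
    exact htail N M hM
  refine h4.trans ?_
  have hN0 : (0 : ℝ) < N := by exact_mod_cast hN
  exact div_le_div_of_nonneg_left hB hN0 (by linarith)

end Pool.Agent.H38R2.CG
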