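import Pool.Agent.H45.Lib.S8.H38R2.CG.Stubs

/-! N4a: a `ℤ`-basis of the inverse of an ideal, with its determinant. -/

set_option autoImplicit false

namespace Pool.Agent.H38R2.CG

open Finset Filter NumberField Module
open scoped nonZeroDivisors

namespace N4ah

theorem sig_rat {K : Type} [Field K] [NumberField K] (σ : K →+* ℝ) (q : ℚ) (x : K) :
    σ (q • x) = (q : ℝ) * σ x := by
  rw [Algebra.smul_def, map_mul]
  congr 1
  rw [eq_ratCast, map_ratCast]

/-- algebra -/
theorem det_alg (p0 q0 p1 q1 s : ℝ) (D : ℝ) :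
    (p0 + q0 * ((D + s) / 2)) * (p1 + q1 * ((D - s) / 2)) -
      (p1 + q1 * ((D + s) / 2)) * (p0 + q0 * ((D - s) / 2)) = -((p0 * q1 - p1 * q0) * s) := by
  ring

end N4ah

open N4ah in
theorem T_N4a : P_N4a := by
  intro K _ _ D hD hrank hdisc e A hA
  classical
  have hD0 : (0 : ℝ) < √(D : ℝ) := Real.sqrt_pos.2 (by exact_mod_cast (zero_lt_one.trans hD.1))
  obtain ⟨w, hw1, hw2⟩ := e.int2 D 1 (by simp)
  have hw1' : e.σ (w : K) = ((D : ℝ) + √(D : ℝ)) / 2 := by rw [hw1]; push_cast; ring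
  have hw2' : e.τ (w : K) = ((D : ℝ) - √(D : ℝ)) / 2 := by rw [hw2]; push_cast; ring
  have hinj : Function.Injective e.σ := e.σ.injective
  have hrep : ∀ x : 𝓞 K, ∃ a b : ℤ, x = a + b * w := by
    intro x
    obtain ⟨u, v, ⟨a, ha⟩, h1, h2⟩ := e.int1 x
    refine ⟨a, v, ?_⟩
    apply RingOfIntegers.ext
    apply hinj
    have hu : (u : ℝ) = D * v + 2 * a := by
      have : u = D * v + 2 * a := by linarith
      rw [this]; push_cast; ring
    have hc : (((a : ℤ) + (v : ℤ) * w : 𝓞 K) : K) = (a : K) + (v : K) * (w : K) := by simp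
    rw [h1, hc, map_add, map_mul, map_intCast, map_intCast, hw1', hu]
    ring
  have hli : LinearIndependent ℤ ![(1 : 𝓞 K), w] := by
    rw [LinearIndependent.pair_iff]
    intro s t hst
    have h1 : (s : K) + t * (w : K) = 0 := by
      have := congrArg (fun z : 𝓞 K => (z : K)) hst
      simpa [zsmul_eq_mul] using this
    have h2 := congrArg e.σ h1
    have h3 := congrArg e.τ h1
    rw [map_add, map_mul, map_intCast, map_intCast, map_zero, hw1'] at h2
    rw [map_add, map_mul, map_intCast, map_intCast, map_zero, hw2'] at h3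
    have h4 : (t : ℝ) * √(D : ℝ) = 0 := by linarith
    have h5 : (t : ℝ) = 0 := by
      rcases mul_eq_zero.1 h4 with h | h
      · exact h
      · exact absurd h hD0.ne'
    have h6 : (s : ℝ) = 0 := by rw [h5] at h2; linarith
    exact ⟨by exact_mod_cast h6, by exact_mod_cast h5⟩
  have hsp : ⊤ ≤ Submodule.span ℤ (Set.range ![(1 : 𝓞 K), w]) := by
    intro x _
    obtain ⟨a, b, rfl⟩ := hrep x
    refine Submodule.add_mem _ ?_ ?_
    · have : ((a : ℤ) : 𝓞 K) = a • (![(1 : 𝓞 K), w] 0) := by simp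
      rw [this]
      exact Submodule.smul_mem _ _ (Submodule.subset_span ⟨0, rfl⟩)
    · have : ((b : ℤ) : 𝓞 K) * w = b • (![(1 : 𝓞 K), w] 1) := by simp
      rw [this]
      exact Submodule.smul_mem _ _ (Submodule.subset_span ⟨1, rfl⟩)
  let b : Basis (Fin 2) ℤ (𝓞 K) := Basis.mk hli hsp
  have hb0 : b 0 = 1 := by simp [b]
  have hb1 : b 1 = w := by simp [b]
  set I : FractionalIdeal (𝓞 K)⁰ K := (A : FractionalIdeal (𝓞 K)⁰ K)⁻¹ with hI
  have hA0 : (A : FractionalIdeal (𝓞 K)⁰ K) ≠ 0 := FractionalIdeal.coeIdeal_ne_zero.2 hA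
  have hI0 : I ≠ 0 := inv_ne_zero hA0
  have hfr : finrank ℤ I = 2 := by
    have h1 := fractionalIdeal_rank K (Units.mk0 I hI0)
    rw [RingOfIntegers.rank, hrank] at h1
    exact h1
  let bI : Basis (Fin 2) ℤ I := Module.finBasisOfFinrankEq ℤ I hfr
  refine ⟨(bI 0 : K), (bI 1 : K), ?_, ?_⟩
  · intro x
    constructor
    · intro hx
      refine ⟨bI.repr ⟨x, hx⟩ 0, bI.repr ⟨x, hx⟩ 1, ?_⟩
      have h1 := bI.sum_repr ⟨x, hx⟩
      rw [Fin.sum_univ_two] at h1
      have h2 := congrArg (fun z : I => (z : K)) h1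
      simpa [zsmul_eq_mul] using h2.symm
    · rintro ⟨m, n, rfl⟩
      have h1 : (m : K) * (bI 0 : K) + (n : K) * (bI 1 : K) = ((m • bI 0 + n • bI 1 : I) : K) := by
        simp [zsmul_eq_mul]
      rw [h1]
      exact (m • bI 0 + n • bI 1 : I).2
  · have hdet := FractionalIdeal.abs_det_basis_change b I bI
    set B := b.localizationLocalization ℚ ℤ⁰ K with hB
    have hB0 : B 0 = 1 := by
      rw [hB, Basis.localizationLocalization_apply, hb0, map_one]
    have hB1 : B 1 = (w : K) := by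
      rw [hB, Basis.localizationLocalization_apply, hb1]
    rw [Basis.det_apply, Matrix.det_fin_two] at hdet
    simp only [Basis.toMatrix_apply, Function.comp_apply] at hdet
    have hx : ∀ x : K, x = B.repr x 0 • (1 : K) + B.repr x 1 • (w : K) := by
      intro x
      have := B.sum_repr x
      rw [Fin.sum_univ_two, hB0, hB1] at this
      exact this.symm
    have hσ : ∀ x : K, e.σ x = (B.repr x 0 : ℝ) + (B.repr x 1 : ℝ) * (((D : ℝ) + √(D : ℝ)) / 2) := by
      intro x
      conv_lhs => rw [hx x]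
      rw [map_add, sig_rat, sig_rat, map_one, hw1', mul_one]
    have hτ : ∀ x : K, e.τ x = (B.repr x 0 : ℝ) + (B.repr x 1 : ℝ) * (((D : ℝ) - √(D : ℝ)) / 2) := by
      intro x
      conv_lhs => rw [hx x]
      rw [map_add, sig_rat, sig_rat, map_one, hw2', mul_one]
    rw [hσ (bI 0 : K), hσ (bI 1 : K), hτ (bI 0 : K), hτ (bI 1 : K), det_alg, abs_neg, abs_mul,
      abs_of_pos hD0]
    have hn : FractionalIdeal.absNorm I = ((Ideal.absNorm A : ℕ) : ℚ)⁻¹ := by
      rw [hI, map_inv₀, FractionalIdeal.coeIdeal_absNorm]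
    rw [hn] at hdet
    have hdet' := congrArg (fun q : ℚ => (q : ℝ)) hdet
    simp only [Rat.cast_abs, Rat.cast_sub, Rat.cast_mul, Rat.cast_inv, Rat.cast_natCast] at hdet'
    rw [hdet', div_eq_mul_inv, mul_comm]

end Pool.Agent.H38R2.CG
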