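import Pool.Agent.H45.Lib.S8.H38R2.CG.Stubs

/-! # N5b: the limit of Vij -/

set_option autoImplicit false

namespace Pool.Agent.H38R2.CG

open Finset Filter NumberField
open scoped Classical

namespace N5bh

variable {K : Type} [Field K] [NumberField K] {D : ℕ}

theorem lat_empty (e : Emb K D) (B : Ideal (𝓞 K)) {α β : ℝ} (h : β ≤ α) (Y : ℝ) :
    latSet e B α β Y = ∅ := by
  ext x
  simp only [latSet, Set.mem_ofPred_eq, Set.mem_empty_iff_false, iff_false]
  rintro ⟨_, _, h1, h2, _⟩
  linarith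

theorem beta_le (l : ℝ) (h : 1 ≤ |l|) : min 1 (1 - l) ≤ max 0 (-l) := by
  rcases le_abs.mp h with h1 | h1
  · exact (min_le_right _ _).trans ((by linarith : 1 - l ≤ 0).trans (le_max_left _ _))
  · exact (min_le_left _ _).trans (h1.trans (le_max_right _ _))

theorem diff_eq (l : ℝ) (h : |l| < 1) : max 0 (-l) < min 1 (1 - l) ∧
    min 1 (1 - l) - max 0 (-l) = phi l := by
  have h1 := abs_lt.mp h
  have h2 : phi l = 1 - |l| := by
    unfold phi
    exact max_eq_right (by linarith)
  rcases le_total 0 l with h3 | h3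
  · rw [h2, abs_of_nonneg h3, min_eq_right (by linarith), max_eq_left (by linarith)]
    constructor <;> linarith
  · rw [h2, abs_of_nonpos h3, min_eq_left (by linarith), max_eq_right (by linarith)]
    constructor <;> linarith

theorem phi_zero (l : ℝ) (h : 1 ≤ |l|) : phi l = 0 := by
  unfold phi
  exact max_eq_left (by linarith)

end N5bh

open N5bh in
theorem T_N5b : P_KF → P_N4 → P_N5b := by
  intro hKF hN4 K _ _ D hD hrk hdisc e A B hA hB
  have hfin := hKF K D hD hrk hdisc e A B hA hB
  set l : K → ℝ := fun x => Real.log (e.σ x / e.τ x) with hl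
  set S : Finset K := hfin.toFinset with hS
  have hmem : ∀ x, x ∈ S ↔ x ∈ XAB e A B ∧ |l x| ≤ 1 := by
    intro x
    rw [hS, Set.Finite.mem_toFinset]
    rfl
  have hsub : (↑S : Set K) ⊆ XAB e A B := by
    intro x hx
    exact ((hmem x).mp hx).1
  have hV : ∀ Y : ℝ, Vij e A B Y = ∑ x ∈ S, ((latSet e B (max 0 (-(l x)))
      (min 1 (1 - l x)) Y).ncard : ℝ) := by
    intro Y
    unfold Vij
    apply finsum_mem_eq_sum_of_subset _ _ hsub
    rintro x ⟨hx, hx2⟩
    rw [Finset.mem_coe, hmem]
    refine ⟨hx, ?_⟩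
    by_contra hlt
    push Not at hlt
    apply hx2
    have : latSet e B (max 0 (-(l x))) (min 1 (1 - l x)) Y = ∅ :=
      lat_empty e B (beta_le _ hlt.le) Y
    simp only [hl] at this
    beta_reduce
    rw [this]
    simp
  have hK : KAB e A B = ∑ x ∈ S, phi (l x) := by
    unfold KAB
    apply finsum_mem_eq_sum_of_subset _ _ hsub
    rintro x ⟨hx, hx2⟩
    rw [Finset.mem_coe, hmem]
    refine ⟨hx, ?_⟩
    by_contra hlt
    push Not at hlt
    exact hx2 (phi_zero _ hlt.le)
  have e1 : (fun N : ℕ => Vij e A B N / N) = fun N : ℕ => ∑ x ∈ S,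
      (((latSet e B (max 0 (-(l x))) (min 1 (1 - l x)) N).ncard : ℝ) / N) := by
    funext N
    rw [hV, Finset.sum_div]
  rw [e1, hK, Finset.sum_div]
  apply tendsto_finsetSum
  intro x hx
  rcases lt_or_ge |l x| 1 with h | h
  · obtain ⟨h1, h2⟩ := diff_eq (l x) h
    have := (hN4 K D hD hrk hdisc e B hB _ _ h1).2
    rw [h2] at this
    exact this
  · rw [phi_zero _ h, zero_div]
    have : ∀ N : ℕ, latSet e B (max 0 (-(l x))) (min 1 (1 - l x)) N = ∅ :=
      fun N => lat_empty e B (beta_le _ h) N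
    simp only [this, Set.ncard_empty, Nat.cast_zero, zero_div]
    exact tendsto_const_nhds

end Pool.Agent.H38R2.CG
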