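import Pool.Agent.H45.Lib.S8.H38R2.CG.Stubs

/-!
# N6: from pairs of ideals to elements
-/

set_option autoImplicit false

namespace Pool.Agent.H38R2.CG

open Finset Filter NumberField
open scoped Classical

namespace N6h

lemma sup_mul_sup' {R : Type*} [CommRing R] (B I J : Ideal R) (h : I ⊔ J = ⊤) :
    (B ⊔ I) * (B ⊔ J) = B ⊔ I * J := by
  apply le_antisymm
  · rw [Ideal.sup_mul, Ideal.mul_sup, Ideal.mul_sup]
    refine sup_le (sup_le ?_ ?_) (sup_le ?_ ?_)
    · exact le_sup_of_le_left Ideal.mul_le_left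
    · exact le_sup_of_le_left Ideal.mul_le_left
    · exact le_sup_of_le_left Ideal.mul_le_right
    · exact le_sup_right
  · refine sup_le ?_ ?_
    · calc B = B * (I ⊔ J) := by rw [h, Ideal.mul_top]
        _ = B * I ⊔ B * J := Ideal.mul_sup _ _ _
        _ ≤ (B ⊔ I) * (B ⊔ J) := by
          have e1 : B ≤ B ⊔ I := le_sup_left
          have e2 : I ≤ B ⊔ I := le_sup_right
          have e3 : B ≤ B ⊔ J := le_sup_left
          have e4 : J ≤ B ⊔ J := le_sup_right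
          refine sup_le ?_ ?_
          · rw [mul_comm B I]
            exact Ideal.mul_mono e2 e3
          · exact Ideal.mul_mono e1 e4
    · have e2 : I ≤ B ⊔ I := le_sup_right
      have e4 : J ≤ B ⊔ J := le_sup_right
      exact Ideal.mul_mono e2 e4

lemma coprime_prod_cast {R : Type*} [CommRing R] (a : ℕ) (t : Finset ℕ)
    (ha : a.Prime) (ht : ∀ p ∈ t, p.Prime) (hat : a ∉ t) :
    IsCoprime (a : R) (∏ p ∈ t, (p : R)) := by
  apply IsCoprime.prod_right
  intro p hp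
  have hne : a ≠ p := fun h => hat (h ▸ hp)
  have h1 : Nat.Coprime a p := (Nat.coprime_primes ha (ht p hp)).2 hne
  have h2 : IsCoprime (a : ℤ) (p : ℤ) := Nat.isCoprime_iff_coprime.2 h1
  have h3 := h2.map (Int.castRingHom R)
  simpa using h3

lemma sup_prod {R : Type*} [CommRing R] (B : Ideal R) (t : Finset ℕ)
    (ht : ∀ p ∈ t, p.Prime) :
    B ⊔ Ideal.span {∏ p ∈ t, (p : R)} = ∏ p ∈ t, (B ⊔ Ideal.span {(p : R)}) := by
  induction t using Finset.induction_on with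
  | empty => simp
  | insert a t hat ih =>
    have ht' : ∀ p ∈ t, p.Prime := fun p hp => ht p (Finset.mem_insert_of_mem hp)
    rw [Finset.prod_insert hat, Finset.prod_insert hat, ← ih ht', sup_mul_sup',
      Ideal.span_singleton_mul_span_singleton]
    have hc : IsCoprime (a : R) (∏ p ∈ t, (p : R)) :=
      coprime_prod_cast a t (ht a (Finset.mem_insert_self a t)) ht' hat
    have h2 := (Ideal.isCoprime_span_singleton_iff (a : R) (∏ p ∈ t, (p : R))).2 hc
    exact Ideal.isCoprime_iff_sup_eq.1 h2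

lemma prodS_pos (s : Finset ℕ) (hs : ∀ p ∈ s, p.Prime) : 0 < prodS s :=
  Finset.prod_pos (fun p hp => (hs p hp).pos)

lemma prodS_fact (s : Finset ℕ) (hs : ∀ p ∈ s, p.Prime) (p : ℕ) (hp : p.Prime) :
    (prodS s).factorization p = if p ∈ s then 1 else 0 := by
  unfold prodS
  rw [Nat.factorization_prod (fun q hq => (hs q hq).ne_zero)]
  rw [Finsupp.finsetSum_apply]
  have : ∀ q ∈ s, (q.factorization p) = if q = p then 1 else 0 := by
    intro q hq
    rw [Nat.Prime.factorization (hs q hq)]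
    by_cases h : q = p
    · subst h; simp
    · rw [Finsupp.single_apply]
  rw [Finset.sum_congr rfl this]
  rw [Finset.sum_ite_eq']

section NF
variable {K : Type} [Field K] [NumberField K]

lemma eq_prod (t : Finset ℕ) (ht : ∀ p ∈ t, p.Prime) (B : Ideal (𝓞 K))
    (hB : Ideal.absNorm B = prodS t) :
    B = ∏ p ∈ t, (B ⊔ Ideal.span {(p : 𝓞 K)}) := by
  rw [← sup_prod B t ht]
  have h1 : ((Ideal.absNorm B : ℕ) : 𝓞 K) ∈ B := Ideal.absNorm_mem B
  rw [hB] at h1
  have h2 : (∏ p ∈ t, (p : 𝓞 K)) ∈ B := by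
    have h3 : ((prodS t : ℕ) : 𝓞 K) = ∏ p ∈ t, (p : 𝓞 K) := by
      unfold prodS; push_cast; rfl
    rwa [h3] at h1
  have h3 : Ideal.span {∏ p ∈ t, (p : 𝓞 K)} ≤ B := (Ideal.span_singleton_le_iff_mem _).2 h2
  exact (sup_eq_left.2 h3).symm

lemma absNorm_span_nat (p : ℕ) :
    Ideal.absNorm (Ideal.span {(p : 𝓞 K)}) = p ^ Module.finrank ℤ (𝓞 K) := by
  rw [Ideal.absNorm_span_singleton]
  have h1 : Algebra.norm ℤ ((p : 𝓞 K)) = (p : ℤ) ^ Module.finrank ℤ (𝓞 K) := by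
    have h2 := Algebra.norm_algebraMap (S := 𝓞 K) (p : ℤ)
    simpa using h2
  rw [h1]
  simp [Int.natAbs_pow]

lemma absNorm_comp (t : Finset ℕ) (ht : ∀ p ∈ t, p.Prime) (B : Ideal (𝓞 K))
    (hB : Ideal.absNorm B = prodS t) (p : ℕ) (hp : p ∈ t) :
    Ideal.absNorm (B ⊔ Ideal.span {(p : 𝓞 K)}) = p := by
  set a : ℕ → ℕ := fun q => Ideal.absNorm (B ⊔ Ideal.span {(q : 𝓞 K)}) with ha
  have hdvd : ∀ q : ℕ, a q ∣ q ^ Module.finrank ℤ (𝓞 K) := by
    intro q
    rw [← absNorm_span_nat (K := K) q]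
    exact Ideal.absNorm_dvd_absNorm_of_le le_sup_right
  have hprod : ∏ q ∈ t, a q = prodS t := by
    rw [← hB]
    conv_rhs => rw [eq_prod t ht B hB]
    rw [map_prod]
  have hne : ∀ q ∈ t, a q ≠ 0 := by
    intro q hq h0
    have h1 := hdvd q
    rw [h0] at h1
    have h2 := Nat.eq_zero_of_zero_dvd h1
    exact (pow_ne_zero _ (ht q hq).ne_zero) h2
  have hfac : (∏ q ∈ t, a q).factorization p = (a p).factorization p := by
    rw [Nat.factorization_prod hne, Finsupp.finsetSum_apply]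
    apply Finset.sum_eq_single_of_mem p hp
    intro q hq hqp
    apply Nat.factorization_eq_zero_of_not_dvd
    intro hd
    have h1 : p ∣ q ^ Module.finrank ℤ (𝓞 K) := hd.trans (hdvd q)
    have h2 : p ∣ q := (ht p hp).dvd_of_dvd_pow h1
    exact hqp ((Nat.prime_dvd_prime_iff_eq (ht p hp) (ht q hq)).1 h2).symm
  rw [hprod, prodS_fact t ht p (ht p hp), if_pos hp] at hfac
  obtain ⟨j, -, hj⟩ := (Nat.dvd_prime_pow (ht p hp)).1 (hdvd p)
  have hj1 : j = 1 := by
    rw [hj, Nat.Prime.factorization_pow (ht p hp)] at hfac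
    simpa using hfac.symm
  show a p = p
  rw [hj, hj1, pow_one]

lemma card_le (p : ℕ) (hp : p.Prime) (J : Ideal (𝓞 K)) (hJ : Ideal.absNorm J ≠ 0)
    (T : Finset (Ideal (𝓞 K))) (hT : ∀ P ∈ T, Ideal.absNorm P = p ∧ P ∣ J) :
    T.card ≤ (Ideal.absNorm J).factorization p := by
  have hprime : ∀ P ∈ T, Prime P := by
    intro P hP
    have h1 : (Ideal.absNorm P) = p := (hT P hP).1
    have h2 : P.IsPrime := Ideal.isPrime_of_irreducible_absNorm (by rw [h1]; exact hp)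
    apply Ideal.prime_of_isPrime _ h2
    intro h3
    rw [h3] at h1
    simp at h1
    exact hp.ne_zero h1.symm
  have h1 : ∏ P ∈ T, P ∣ J := Finset.prod_primes_dvd J hprime (fun P hP => (hT P hP).2)
  have h2 : Ideal.absNorm (∏ P ∈ T, P) ∣ Ideal.absNorm J :=
    Ideal.absNorm_dvd_absNorm_of_le (Ideal.dvd_iff_le.1 h1)
  rw [map_prod, Finset.prod_congr rfl (fun P hP => (hT P hP).1), Finset.prod_const] at h2
  exact (hp.pow_dvd_iff_le_factorization hJ).1 h2

lemma count (s t : Finset ℕ) (hs : ∀ p ∈ s, p.Prime) (ht : ∀ p ∈ t, p.Prime)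
    (J : Ideal (𝓞 K)) (hJ : Ideal.absNorm J = prodS s * prodS t)
    (UB : Finset (Ideal (𝓞 K))) (hUB : ∀ B ∈ UB, Ideal.absNorm B = prodS t ∧ B ∣ J) :
    UB.card ≤ 2 ^ ((s ∩ t).card) := by
  have hJ0 : Ideal.absNorm J ≠ 0 := by
    rw [hJ]
    exact (Nat.mul_pos (prodS_pos s hs) (prodS_pos t ht)).ne'
  let T : ℕ → Finset (Ideal (𝓞 K)) := fun p => UB.image (fun B => B ⊔ Ideal.span {(p : 𝓞 K)})
  have hTcard : ∀ p ∈ t, (T p).card ≤ if p ∈ s then 2 else 1 := by
    intro p hp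
    have h1 := card_le p (ht p hp) J hJ0 (T p) (by
      intro P hP
      obtain ⟨B, hB, rfl⟩ := Finset.mem_image.1 hP
      refine ⟨absNorm_comp t ht B (hUB B hB).1 p hp, ?_⟩
      exact (Ideal.dvd_iff_le.2 le_sup_left).trans (hUB B hB).2)
    rw [hJ, Nat.factorization_mul (prodS_pos s hs).ne' (prodS_pos t ht).ne',
      Finsupp.add_apply, prodS_fact s hs p (ht p hp), prodS_fact t ht p (ht p hp),
      if_pos hp] at h1
    by_cases hps : p ∈ s
    · rw [if_pos hps] at h1 ⊢; exact h1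
    · rw [if_neg hps] at h1 ⊢; simpa using h1
  have hinj : UB.card ≤ (t.pi T).card := by
    apply Finset.card_le_card_of_injOn
      (fun (B : Ideal (𝓞 K)) (p : ℕ) (_ : p ∈ t) => B ⊔ Ideal.span {(p : 𝓞 K)})
    · intro B hB
      rw [Finset.mem_coe, Finset.mem_pi]
      intro p hp
      exact Finset.mem_image_of_mem _ hB
    · intro B hB C hC hBC
      rw [eq_prod t ht B (hUB B hB).1, eq_prod t ht C (hUB C hC).1]
      apply Finset.prod_congr rfl
      intro p hp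
      have := congrFun (congrFun hBC p) hp
      exact this
  refine hinj.trans ?_
  rw [Finset.card_pi]
  refine (Finset.prod_le_prod' hTcard).trans ?_
  rw [Finset.prod_ite, Finset.prod_const, Finset.prod_const_one, mul_one]
  have h5 : t.filter (fun p => p ∈ s) = s ∩ t := by
    ext p
    simp [and_comm]
  rw [h5]

lemma phi_nonneg (x : ℝ) : 0 ≤ phi x := le_max_left _ _

lemma phi_ne {x : ℝ} (h : phi x ≠ 0) : |x| < 1 := by
  by_contra hc
  push Not at hc
  apply h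
  unfold phi
  exact max_eq_left (by linarith)

lemma boxl (p q n : ℝ) (hp : 0 < p) (hq : 0 < q) (hn : p * q = n) (h1 : 1 ≤ n)
    (hl : Real.log (p / q) < 1) : p ≤ 2 * n := by
  have h2 : p / q < Real.exp 1 := (Real.log_lt_iff_lt_exp (div_pos hp hq)).1 hl
  have h3 : Real.exp 1 < 3 := by
    have := Real.exp_one_lt_d9
    linarith
  have h4 : p / q < 3 := h2.trans h3
  have h5 : p < 3 * q := by rwa [div_lt_iff₀ hq] at h4
  by_contra hc
  push Not at hc
  nlinarith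

/-- the weight of a pair (u, v) -/
noncomputable def Rc (D n : ℕ) (c : ℕ × ℤ) : ℝ :=
  if ((c.1 : ℤ) ^ 2 - (D : ℤ) * c.2 ^ 2 = 4 * n) then
      phi (Real.log (((c.1 : ℝ) + c.2 * √(D : ℝ)) / ((c.1 : ℝ) - c.2 * √(D : ℝ)))) else 0

lemma Rc_nonneg (D n : ℕ) (c : ℕ × ℤ) : 0 ≤ Rc D n c := by
  unfold Rc
  split_ifs
  · exact phi_nonneg _
  · exact le_rfl

noncomputable def box (n : ℕ) : Finset (ℕ × ℤ) := Finset.Icc 1 (4 * n) ×ˢ Finset.Icc (-(4 * n : ℤ)) (4 * n)

lemma Rsum_eq (D n : ℕ) : Rsum D n = ∑ c ∈ box n, Rc D n c := by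
  unfold Rsum box Rc
  rw [Finset.sum_product]

/-- the integral element attached to x -/
lemma exists_int {D : ℕ} (e : Emb K D) (hfin : Module.finrank ℚ K = 2)
    (A B : Ideal (𝓞 K)) (N M : ℕ) (hN : 0 < N) (_hM : 0 < M)
    (hA : Ideal.absNorm A = N) (hB : Ideal.absNorm B = M) (x : K) (hx : x ∈ XAB e A B) :
    ∃ b : 𝓞 K, (b : K) = x * N ∧ B ∣ Ideal.span {b} ∧
      Ideal.absNorm (Ideal.span {b}) = N * M ∧ (e.σ x * N) * (e.τ x * N) = (N : ℝ) * M := by
  obtain ⟨hσ, hτ, hxA⟩ := hx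
  have hNA : ((N : ℕ) : 𝓞 K) ∈ A := by
    have := Ideal.absNorm_mem A
    rwa [hA] at this
  have h1 : x * algebraMap (𝓞 K) K (N : 𝓞 K) ∈
      FractionalIdeal.spanSingleton (nonZeroDivisors (𝓞 K)) x *
      (A : FractionalIdeal (nonZeroDivisors (𝓞 K)) K) :=
    FractionalIdeal.mul_mem_mul (FractionalIdeal.mem_spanSingleton_self _ x)
      (FractionalIdeal.mem_coeIdeal_of_mem _ hNA)
  rw [hxA] at h1
  obtain ⟨b, hb, hbx⟩ := (FractionalIdeal.mem_coeIdeal _).1 h1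
  have hbx' : (b : K) = x * N := by
    have h2 : algebraMap (𝓞 K) K b = (b : K) := rfl
    rw [← h2, hbx]
    simp
  have hdvd : B ∣ Ideal.span {b} :=
    Ideal.dvd_iff_le.2 ((Ideal.span_singleton_le_iff_mem _).2 hb)
  have hmul : Ideal.span {b} * A = Ideal.span {((N : ℕ) : 𝓞 K)} * B := by
    apply FractionalIdeal.coeIdeal_injective (K := K)
    simp only [FractionalIdeal.coeIdeal_mul, FractionalIdeal.coeIdeal_span_singleton]
    rw [← hxA, ← mul_assoc, FractionalIdeal.spanSingleton_mul_spanSingleton]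
    congr 2
    have h2 : algebraMap (𝓞 K) K b = (b : K) := rfl
    rw [h2, hbx', map_natCast, mul_comm]
  have hrank : Module.finrank ℤ (𝓞 K) = 2 := by
    rw [NumberField.RingOfIntegers.rank, hfin]
  have hnorm : Ideal.absNorm (Ideal.span {b}) = N * M := by
    have := congrArg Ideal.absNorm hmul
    rw [map_mul, map_mul, hA, hB, absNorm_span_nat, hrank] at this
    apply Nat.eq_of_mul_eq_mul_right hN
    rw [this]
    ring
  refine ⟨b, hbx', hdvd, hnorm, ?_⟩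
  have h3 : e.σ (b : K) = e.σ x * N := by rw [hbx', map_mul, map_natCast]
  have h4 : e.τ (b : K) = e.τ x * N := by rw [hbx', map_mul, map_natCast]
  have hNr : (0 : ℝ) < N := by exact_mod_cast hN
  rw [← h3, ← h4, ← e.nrm (b : K)]
  have h5 : ((Algebra.norm ℤ b : ℤ) : ℚ) = Algebra.norm ℚ (b : K) := Algebra.coe_norm_int b
  have h6 : (((Algebra.norm ℤ b : ℤ) : ℚ) : ℝ) = e.σ x * N * (e.τ x * N) := by
    rw [h5, e.nrm, h3, h4]
  have h7 : (0 : ℝ) < (((Algebra.norm ℤ b : ℤ) : ℚ) : ℝ) := by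
    rw [h6]; positivity
  have h8 : 0 < Algebra.norm ℤ b := by exact_mod_cast h7
  rw [Ideal.absNorm_span_singleton] at hnorm
  have h9 : (Algebra.norm ℤ b : ℤ) = (N : ℤ) * M := by
    have h10 : ((Algebra.norm ℤ b).natAbs : ℤ) = ((N * M : ℕ) : ℤ) := by rw [hnorm]
    rw [Int.natAbs_of_nonneg h8.le] at h10
    push_cast at h10
    exact h10
  rw [← h5, h9]
  push_cast
  rfl

/-- the relation between x and (u, v) -/
def rel {D : ℕ} (e : Emb K D) (N : ℕ) (x : K) (c : ℕ × ℤ) : Prop :=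
  e.σ x * N = ((c.1 : ℝ) + c.2 * √(D : ℝ)) / 2 ∧ e.τ x * N = ((c.1 : ℝ) - c.2 * √(D : ℝ)) / 2

lemma claimA {D : ℕ} (hD : 1 < D) (e : Emb K D) (hfin : Module.finrank ℚ K = 2)
    (A B : Ideal (𝓞 K)) (N M : ℕ) (hN : 0 < N) (hM : 0 < M)
    (hA : Ideal.absNorm A = N) (hB : Ideal.absNorm B = M) (x : K) (hx : x ∈ XAB e A B) :
    phi (Real.log (e.σ x / e.τ x)) ≤
      ∑ c ∈ box (N * M), if rel e N x c then Rc D (N * M) c else 0 := by
  have hnn : ∀ c ∈ box (N * M), (0 : ℝ) ≤ if rel e N x c then Rc D (N * M) c else 0 := by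
    intro c _
    split_ifs
    · exact Rc_nonneg _ _ _
    · exact le_rfl
  by_cases hphi : phi (Real.log (e.σ x / e.τ x)) = 0
  · rw [hphi]; exact Finset.sum_nonneg hnn
  obtain ⟨b, hb, -, -, hprod⟩ := exists_int e hfin A B N M hN hM hA hB x hx
  obtain ⟨hσ, hτ, -⟩ := hx
  have hlog := abs_lt.1 (phi_ne hphi)
  have hNr : (0 : ℝ) < N := by exact_mod_cast hN
  have hMr : (0 : ℝ) < M := by exact_mod_cast hM
  have hNM : (1 : ℝ) ≤ (N : ℝ) * M := by
    have : 1 ≤ N * M := Nat.mul_pos hN hM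
    exact_mod_cast this
  have hDr : (1 : ℝ) < D := by exact_mod_cast hD
  have hs1 : 1 ≤ √(D : ℝ) := Real.one_le_sqrt.2 hDr.le
  have hs2 : √(D : ℝ) ^ 2 = D := Real.sq_sqrt (by linarith)
  have h3 : e.σ (b : K) = e.σ x * N := by rw [hb, map_mul, map_natCast]
  have h4 : e.τ (b : K) = e.τ x * N := by rw [hb, map_mul, map_natCast]
  obtain ⟨u, v, -, hu, hv⟩ := e.int1 b
  rw [h3] at hu
  rw [h4] at hv
  set p := e.σ x * N with hp
  set q := e.τ x * N with hq
  have hp0 : 0 < p := mul_pos hσ hNr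
  have hq0 : 0 < q := mul_pos hτ hNr
  have hratio : e.σ x / e.τ x = p / q := by
    rw [hp, hq, mul_div_mul_right _ _ hNr.ne']
  have hratio' : e.σ x / e.τ x = ((u : ℝ) + v * √(D : ℝ)) / ((u : ℝ) - v * √(D : ℝ)) := by
    rw [hratio, hu, hv]
    rw [div_div_div_cancel_right₀ (two_ne_zero)]
  rw [hratio] at hlog
  have hp2 : p ≤ 2 * ((N : ℝ) * M) := boxl p q _ hp0 hq0 hprod hNM hlog.2
  have hq2 : q ≤ 2 * ((N : ℝ) * M) := by
    apply boxl q p _ hq0 hp0 (by rw [mul_comm]; exact hprod) hNM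
    have : Real.log (q / p) = - Real.log (p / q) := by
      rw [← Real.log_inv, inv_div]
    rw [this]
    linarith [hlog.1]
  have hupos : (0 : ℝ) < u := by
    have : (u : ℝ) = p + q := by rw [hu, hv]; ring
    rw [this]; positivity
  have hule : (u : ℝ) ≤ 4 * ((N : ℝ) * M) := by
    have : (u : ℝ) = p + q := by rw [hu, hv]; ring
    rw [this]; linarith
  have hvD : (v : ℝ) * √(D : ℝ) = p - q := by rw [hu, hv]; ring
  have hvle : (v : ℝ) ≤ 4 * ((N : ℝ) * M) := by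
    by_contra hc
    push Not at hc
    have : (v : ℝ) * 1 ≤ v * √(D : ℝ) := by
      apply mul_le_mul_of_nonneg_left hs1; linarith
    linarith
  have hvge : -(4 * ((N : ℝ) * M)) ≤ (v : ℝ) := by
    by_contra hc
    push Not at hc
    have : (-(v : ℝ)) * 1 ≤ (-v) * √(D : ℝ) := by
      apply mul_le_mul_of_nonneg_left hs1; linarith
    linarith
  have huposZ : 0 < u := by exact_mod_cast hupos
  obtain ⟨m, rfl⟩ : ∃ m : ℕ, u = (m : ℤ) := ⟨u.toNat, (Int.toNat_of_nonneg huposZ.le).symm⟩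
  have hmu : (((m : ℤ) : ℝ)) = (m : ℝ) := by push_cast; rfl
  rw [hmu] at hu hv hupos hule hratio'
  have hmem : ((m, v) : ℕ × ℤ) ∈ box (N * M) := by
    unfold box
    rw [Finset.mem_product, Finset.mem_Icc, Finset.mem_Icc]
    refine ⟨⟨?_, ?_⟩, ⟨?_, ?_⟩⟩
    · show 1 ≤ m
      exact_mod_cast huposZ
    · show m ≤ 4 * (N * M)
      exact_mod_cast hule
    · show -(4 * ((N * M : ℕ) : ℤ)) ≤ v
      exact_mod_cast hvge
    · show v ≤ 4 * ((N * M : ℕ) : ℤ)
      exact_mod_cast hvle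
  have heq : (m : ℤ) ^ 2 - (D : ℤ) * v ^ 2 = 4 * ((N * M : ℕ) : ℤ) := by
    have h5 : (m : ℝ) ^ 2 - (D : ℝ) * (v : ℝ) ^ 2 = 4 * ((N : ℝ) * M) := by
      have h6 : p * q = ((m : ℝ) ^ 2 - √(D : ℝ) ^ 2 * (v : ℝ) ^ 2) / 4 := by
        rw [hu, hv]; ring
      rw [hs2, hprod] at h6
      linarith
    exact_mod_cast h5
  refine le_trans ?_ (Finset.single_le_sum hnn hmem)
  rw [if_pos ⟨hu, hv⟩]
  unfold Rc
  rw [if_pos heq, hratio']

lemma claimB {D : ℕ} (e : Emb K D) (hfin : Module.finrank ℚ K = 2)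
    (s t : Finset ℕ) (hs : ∀ p ∈ s, p.Prime) (ht : ∀ p ∈ t, p.Prime)
    (UA UB : Finset (Ideal (𝓞 K))) (hUA : ∀ A ∈ UA, Ideal.absNorm A = prodS s)
    (hUB : ∀ B ∈ UB, Ideal.absNorm B = prodS t)
    (F : Ideal (𝓞 K) → Ideal (𝓞 K) → Finset K)
    (hF : ∀ A ∈ UA, ∀ B ∈ UB, ∀ x ∈ F A B, x ∈ XAB e A B) (c : ℕ × ℤ) :
    ∑ A ∈ UA, ∑ B ∈ UB, ∑ x ∈ F A B, (if rel e (prodS s) x c then (1 : ℝ) else 0) ≤
      2 ^ ((s ∩ t).card) := by
  have hN := prodS_pos s hs
  have hM := prodS_pos t ht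
  have hNr : ((prodS s : ℕ) : ℝ) ≠ 0 := by exact_mod_cast hN.ne'
  by_cases hex : ∃ A ∈ UA, ∃ B ∈ UB, ∃ x ∈ F A B, rel e (prodS s) x c
  swap
  · push Not at hex
    have h0 : ∑ A ∈ UA, ∑ B ∈ UB, ∑ x ∈ F A B,
        (if rel e (prodS s) x c then (1 : ℝ) else 0) = 0 := by
      apply Finset.sum_eq_zero
      intro A hA
      apply Finset.sum_eq_zero
      intro B hB
      apply Finset.sum_eq_zero
      intro x hx
      rw [if_neg (hex A hA B hB x hx)]
    rw [h0]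
    positivity
  obtain ⟨A0, hA0, B0, hB0, x0, hx0, hr0⟩ := hex
  obtain ⟨b0, hb0, -, hJ, -⟩ := exists_int e hfin A0 B0 (prodS s) (prodS t) hN hM
    (hUA A0 hA0) (hUB B0 hB0) x0 (hF A0 hA0 B0 hB0 x0 hx0)
  have huniq : ∀ x : K, rel e (prodS s) x c → x = x0 := by
    intro x hx
    have h1 : e.σ x * (prodS s : ℕ) = e.σ x0 * (prodS s : ℕ) := hx.1.trans hr0.1.symm
    exact e.σ.injective (mul_right_cancel₀ hNr h1)
  have hx0ne : x0 ≠ 0 := by
    rintro rfl
    have h1 := (hF A0 hA0 B0 hB0 0 hx0).1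
    simp at h1
  have step1 : ∀ A ∈ UA, ∀ B ∈ UB, ∑ x ∈ F A B,
      (if rel e (prodS s) x c then (1 : ℝ) else 0) ≤ if x0 ∈ F A B then 1 else 0 := by
    intro A hA B hB
    calc ∑ x ∈ F A B, (if rel e (prodS s) x c then (1 : ℝ) else 0)
        ≤ ∑ x ∈ F A B, (if x = x0 then (1 : ℝ) else 0) := by
          apply Finset.sum_le_sum
          intro x hx
          by_cases hr : rel e (prodS s) x c
          · rw [if_pos hr, if_pos (huniq x hr)]
          · rw [if_neg hr]; split_ifs <;> norm_num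
      _ = if x0 ∈ F A B then 1 else 0 := by
          rw [Finset.sum_ite_eq']
  have hdvd : ∀ A ∈ UA, ∀ B ∈ UB, x0 ∈ F A B → B ∣ Ideal.span {b0} := by
    intro A hA B hB hx
    obtain ⟨b, hb, hbd, -, -⟩ := exists_int e hfin A B (prodS s) (prodS t) hN hM
      (hUA A hA) (hUB B hB) x0 (hF A hA B hB x0 hx)
    have hbb : b = b0 := by
      apply NumberField.RingOfIntegers.ext
      rw [hb, hb0]
    rwa [hbb] at hbd
  have hAuniq : ∀ B ∈ UB, ∀ A ∈ UA, ∀ A' ∈ UA, x0 ∈ F A B → x0 ∈ F A' B → A = A' := by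
    intro B hB A hA A' hA' h1 h2
    have h3 := (hF A hA B hB x0 h1).2.2
    have h4 := (hF A' hA' B hB x0 h2).2.2
    apply FractionalIdeal.coeIdeal_injective (K := K)
    have h5 : FractionalIdeal.spanSingleton (nonZeroDivisors (𝓞 K)) x0 ≠ 0 :=
      FractionalIdeal.spanSingleton_ne_zero_iff.2 hx0ne
    exact mul_left_cancel₀ h5 (h3.trans h4.symm)
  have step2 : ∀ B ∈ UB, ∑ A ∈ UA, (if x0 ∈ F A B then (1 : ℝ) else 0) ≤
      if B ∣ Ideal.span {b0} then 1 else 0 := by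
    intro B hB
    by_cases hd : B ∣ Ideal.span {b0}
    · rw [if_pos hd, Finset.sum_boole]
      have : (UA.filter (fun A => x0 ∈ F A B)).card ≤ 1 := by
        apply Finset.card_le_one.2
        intro A hA A' hA'
        rw [Finset.mem_filter] at hA hA'
        exact hAuniq B hB A hA.1 A' hA'.1 hA.2 hA'.2
      exact_mod_cast this
    · rw [if_neg hd]
      apply le_of_eq
      apply Finset.sum_eq_zero
      intro A hA
      rw [if_neg (fun h => hd (hdvd A hA B hB h))]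
  calc ∑ A ∈ UA, ∑ B ∈ UB, ∑ x ∈ F A B, (if rel e (prodS s) x c then (1 : ℝ) else 0)
      ≤ ∑ A ∈ UA, ∑ B ∈ UB, (if x0 ∈ F A B then (1 : ℝ) else 0) :=
        Finset.sum_le_sum (fun A hA => Finset.sum_le_sum (fun B hB => step1 A hA B hB))
    _ = ∑ B ∈ UB, ∑ A ∈ UA, (if x0 ∈ F A B then (1 : ℝ) else 0) := Finset.sum_comm
    _ ≤ ∑ B ∈ UB, (if B ∣ Ideal.span {b0} then (1 : ℝ) else 0) :=
        Finset.sum_le_sum (fun B hB => step2 B hB)
    _ = ((UB.filter (fun B => B ∣ Ideal.span {b0})).card : ℝ) := by rw [Finset.sum_boole]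
    _ ≤ 2 ^ ((s ∩ t).card) := by
        have := count s t hs ht (Ideal.span {b0}) hJ
          (UB.filter (fun B => B ∣ Ideal.span {b0})) (by
            intro B hB
            rw [Finset.mem_filter] at hB
            exact ⟨hUB B hB.1, hB.2⟩)
        exact_mod_cast this

end NF

end N6h

theorem T_N6 : P_KF → P_N6 := by
  intro hKF K _ _ D hD hfin hdisc e s t hs ht UA UB hUA hUB
  have hs' : ∀ p ∈ s, p.Prime := fun p hp => (hs p hp).1
  have ht' : ∀ p ∈ t, p.Prime := fun p hp => (ht p hp).1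
  have hN := N6h.prodS_pos s hs'
  have hM := N6h.prodS_pos t ht'
  have hA0 : ∀ A ∈ UA, A ≠ ⊥ := by
    rintro A hA rfl
    have := hUA _ hA
    simp at this
    omega
  have hB0 : ∀ B ∈ UB, B ≠ ⊥ := by
    rintro B hB rfl
    have := hUB _ hB
    simp at this
    omega
  let F : Ideal (𝓞 K) → Ideal (𝓞 K) → Finset K := fun A B =>
    if h : A ≠ ⊥ ∧ B ≠ ⊥ then (hKF K D hD hfin hdisc e A B h.1 h.2).toFinset else ∅
  have hF : ∀ A ∈ UA, ∀ B ∈ UB, ∀ x : K, x ∈ F A B ↔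
      x ∈ XAB e A B ∧ |Real.log (e.σ x / e.τ x)| ≤ 1 := by
    intro A hA B hB x
    show x ∈ (if h : A ≠ ⊥ ∧ B ≠ ⊥ then (hKF K D hD hfin hdisc e A B h.1 h.2).toFinset else ∅) ↔ _
    rw [dif_pos ⟨hA0 A hA, hB0 B hB⟩, Set.Finite.mem_toFinset]
    rfl
  have hK : ∀ A ∈ UA, ∀ B ∈ UB, KAB e A B = ∑ x ∈ F A B, phi (Real.log (e.σ x / e.τ x)) := by
    intro A hA B hB
    unfold KAB
    apply finsum_mem_eq_sum_of_inter_support_eq
    ext x
    simp only [Set.mem_inter_iff, Finset.mem_coe, hF A hA B hB x, Function.mem_support]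
    constructor
    · rintro ⟨h1, h2⟩
      exact ⟨⟨h1, (N6h.phi_ne h2).le⟩, h2⟩
    · rintro ⟨⟨h1, -⟩, h2⟩
      exact ⟨h1, h2⟩
  rw [N6h.Rsum_eq]
  calc ∑ A ∈ UA, ∑ B ∈ UB, KAB e A B
      = ∑ A ∈ UA, ∑ B ∈ UB, ∑ x ∈ F A B, phi (Real.log (e.σ x / e.τ x)) :=
        Finset.sum_congr rfl (fun A hA => Finset.sum_congr rfl (fun B hB => hK A hA B hB))
    _ ≤ ∑ A ∈ UA, ∑ B ∈ UB, ∑ x ∈ F A B, ∑ c ∈ N6h.box (prodS s * prodS t),
          (if N6h.rel e (prodS s) x c then N6h.Rc D (prodS s * prodS t) c else 0) := by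
        refine Finset.sum_le_sum (fun A hA => Finset.sum_le_sum (fun B hB =>
          Finset.sum_le_sum (fun x hx => ?_)))
        exact N6h.claimA hD.1 e hfin A B (prodS s) (prodS t) hN hM (hUA A hA) (hUB B hB) x
          ((hF A hA B hB x).1 hx).1
    _ = ∑ c ∈ N6h.box (prodS s * prodS t), N6h.Rc D (prodS s * prodS t) c *
          ∑ A ∈ UA, ∑ B ∈ UB, ∑ x ∈ F A B,
            (if N6h.rel e (prodS s) x c then (1 : ℝ) else 0) := by
        simp_rw [Finset.mul_sum]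
        rw [Finset.sum_comm (s := N6h.box (prodS s * prodS t))]
        refine Finset.sum_congr rfl (fun A _ => ?_)
        rw [Finset.sum_comm (s := N6h.box (prodS s * prodS t))]
        refine Finset.sum_congr rfl (fun B _ => ?_)
        rw [Finset.sum_comm (s := N6h.box (prodS s * prodS t))]
        refine Finset.sum_congr rfl (fun x _ => Finset.sum_congr rfl (fun c _ => ?_))
        split_ifs
        · rw [mul_one]
        · rw [mul_zero]
    _ ≤ ∑ c ∈ N6h.box (prodS s * prodS t), N6h.Rc D (prodS s * prodS t) c *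
          2 ^ ((s ∩ t).card) := by
        refine Finset.sum_le_sum (fun c _ => mul_le_mul_of_nonneg_left ?_ (N6h.Rc_nonneg _ _ _))
        exact N6h.claimB e hfin s t hs' ht' UA UB hUA hUB F
          (fun A hA B hB x hx => ((hF A hA B hB x).1 hx).1) c
    _ = 2 ^ ((s ∩ t).card) * ∑ c ∈ N6h.box (prodS s * prodS t),
          N6h.Rc D (prodS s * prodS t) c := by
        rw [← Finset.sum_mul, mul_comm]

end Pool.Agent.H38R2.CG
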