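import Pool.Agent.H45.Lib.S8.H38R2.CG.Stubs
import Pool.Agent.H45.Lib.S8.H343R2.PV

/-! Pólya–Vinogradov for nonprincipal characters which need not be primitive. -/

namespace Pool.Agent.H38R2.CG

namespace PVh

lemma card_divisors_le (k : ℕ) (hk : 1 ≤ k) : (k.divisors.card : ℝ) ≤ 2 * √(k : ℝ) := by
  have hsub : k.divisors ⊆ Finset.Icc 1 (Nat.sqrt k) ∪ (Finset.Icc 1 (Nat.sqrt k)).image (k / ·) := by
    intro d hd
    rw [Nat.mem_divisors] at hd
    obtain ⟨⟨e, he⟩, hk0⟩ := hd
    have hd1 : 1 ≤ d := by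
      rcases Nat.eq_zero_or_pos d with h | h
      · subst h; simp at he; omega
      · exact h
    have he1 : 1 ≤ e := by
      rcases Nat.eq_zero_or_pos e with h | h
      · subst h; simp at he; omega
      · exact h
    rw [Finset.mem_union, Finset.mem_image]
    by_cases h : d ≤ Nat.sqrt k
    · left; exact Finset.mem_Icc.mpr ⟨hd1, h⟩
    · right
      refine ⟨e, Finset.mem_Icc.mpr ⟨he1, ?_⟩, ?_⟩
      · by_contra hcon
        have h1 : Nat.sqrt k + 1 ≤ d := by omega
        have h2 : Nat.sqrt k + 1 ≤ e := by omega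
        have h3 : (Nat.sqrt k + 1) * (Nat.sqrt k + 1) ≤ d * e := Nat.mul_le_mul h1 h2
        have h4 := Nat.lt_succ_sqrt k
        rw [Nat.succ_eq_add_one] at h4
        omega
      · show k / e = d
        rw [he]
        exact Nat.mul_div_cancel _ he1
  have h1 := (Finset.card_le_card hsub).trans (Finset.card_union_le _ _)
  have h2 : ((Finset.Icc 1 (Nat.sqrt k)).image (k / ·)).card ≤ Nat.sqrt k := by
    refine Finset.card_image_le.trans ?_
    rw [Nat.card_Icc]; omega
  rw [Nat.card_Icc] at h1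
  have h3 : k.divisors.card ≤ 2 * Nat.sqrt k := by omega
  have h4 : ((Nat.sqrt k : ℕ) : ℝ) ≤ √(k : ℝ) := Real.nat_sqrt_le_real_sqrt
  calc (k.divisors.card : ℝ) ≤ ((2 * Nat.sqrt k : ℕ) : ℝ) := by exact_mod_cast h3
    _ = 2 * (Nat.sqrt k : ℝ) := by push_cast; ring
    _ ≤ 2 * √(k : ℝ) := by linarith

lemma sum_le (q : ℕ) (χ : DirichletCharacter ℂ q) (hq : 2 ≤ q) (hχ : χ ≠ 1) (N : ℕ) :
    ‖∑ n ∈ Finset.Icc 1 N, χ (n : ZMod q)‖ ≤ 4 * √(q : ℝ) * (1 + Real.log q) := by
  haveI : NeZero q := ⟨by omega⟩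
  obtain ⟨f, hf⟩ : ∃ f : ℕ, f = χ.conductor := ⟨_, rfl⟩
  have hfq : χ.conductor ∣ q := χ.conductor_dvd_level
  have hf0 : χ.conductor ≠ 0 := χ.conductor_ne_zero
  have hf1 : χ.conductor ≠ 1 := by
    intro h
    exact hχ ((DirichletCharacter.eq_one_iff_conductor_eq_one (χ := χ)).mpr h)
  have hf2 : 2 ≤ χ.conductor := by omega
  obtain ⟨k, hk⟩ := hfq
  have hk1 : 1 ≤ k := by
    rcases Nat.eq_zero_or_pos k with h | h
    · rw [h, mul_zero] at hk; omega
    · exact h
  have hval : ∀ n : ℕ, χ (n : ZMod q) =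
      if n.Coprime k then χ.primitiveCharacter (n : ZMod χ.conductor) else 0 := by
    intro n
    by_cases hn : n.Coprime q
    · have hnk : n.Coprime k := Nat.Coprime.coprime_dvd_right ⟨χ.conductor, by rw [mul_comm]; exact hk⟩ hn
      rw [if_pos hnk]
      have h1 := χ.primitiveCharacter_apply_of_isCoprime (a := (n : ℤ))
        (Nat.isCoprime_iff_coprime.mpr hn)
      simpa using h1.symm
    · have h0 : χ (n : ZMod q) = 0 := by
        apply χ.map_nonunit
        rwa [ZMod.isUnit_iff_coprime]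
      rw [h0]
      split_ifs with hnk
      · symm
        apply MulChar.map_nonunit
        rw [ZMod.isUnit_iff_coprime]
        intro hc
        apply hn
        rw [hk]
        exact Nat.Coprime.mul_right hc hnk
      · rfl
  have hsum : ∑ n ∈ Finset.Icc 1 N, χ (n : ZMod q) =
      ∑ n ∈ (Finset.Icc 1 N).filter (fun a => a.Coprime k),
        χ.primitiveCharacter (n : ZMod χ.conductor) := by
    rw [Finset.sum_filter]
    exact Finset.sum_congr rfl fun n _ => hval n
  rw [hsum]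
  have hPV := H343.PV χ.conductor k N hf2 hk1 χ.primitiveCharacter
    χ.primitiveCharacter_isPrimitive
  have hkd := card_divisors_le k hk1
  have hfr : (1 : ℝ) ≤ (χ.conductor : ℝ) := by
    have : 1 ≤ χ.conductor := by omega
    exact_mod_cast this
  have hlogf : 0 ≤ Real.log (χ.conductor : ℝ) := Real.log_nonneg hfr
  have hfq' : (χ.conductor : ℝ) ≤ q := by
    have : χ.conductor ≤ q := Nat.le_of_dvd (by omega) χ.conductor_dvd_level
    exact_mod_cast this
  have hlog : Real.log (χ.conductor : ℝ) ≤ Real.log q := Real.log_le_log (by linarith) hfq'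
  have hprod : √(k : ℝ) * √(χ.conductor : ℝ) = √(q : ℝ) := by
    rw [← Real.sqrt_mul (Nat.cast_nonneg k)]
    congr 1
    rw [mul_comm]
    exact_mod_cast hk.symm
  calc _ ≤ (k.divisors.card : ℝ) * (2 * √(χ.conductor : ℝ) * (1 + Real.log χ.conductor)) := hPV
    _ ≤ (2 * √(k : ℝ)) * (2 * √(χ.conductor : ℝ) * (1 + Real.log χ.conductor)) :=
        mul_le_mul_of_nonneg_right hkd (by positivity)
    _ = 4 * (√(k : ℝ) * √(χ.conductor : ℝ)) * (1 + Real.log χ.conductor) := by ring
    _ = 4 * √(q : ℝ) * (1 + Real.log χ.conductor) := by rw [hprod]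
    _ ≤ 4 * √(q : ℝ) * (1 + Real.log q) := by
        refine mul_le_mul_of_nonneg_left (by linarith) (by positivity)

end PVh

theorem T_PV : P_PV := by
  refine ⟨24, by norm_num, ?_⟩
  intro q χ hq hχ a b
  have hq' : (2 : ℝ) ≤ q := by exact_mod_cast hq
  have hlog : (1 : ℝ) / 2 ≤ Real.log q := by
    have h1 : Real.log 2 ≤ Real.log q := Real.log_le_log (by norm_num) hq'
    have h2 := Real.log_two_gt_d9
    linarith
  have hs : 0 ≤ √(q : ℝ) := Real.sqrt_nonneg _
  have hb1 : 4 * √(q : ℝ) * (1 + Real.log q) ≤ 12 * √(q : ℝ) * Real.log q := by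
    nlinarith
  rcases le_total a b with hab | hab
  · have h1 : ∑ n ∈ Finset.Ioc a b, χ (n : ZMod q) =
        ∑ n ∈ Finset.Icc 1 b, χ (n : ZMod q) - ∑ n ∈ Finset.Icc 1 a, χ (n : ZMod q) := by
      have h2 : ∀ m : ℕ, Finset.Icc 1 m = Finset.Ioc 0 m := fun m => by
        ext x; simp [Finset.mem_Icc, Finset.mem_Ioc, Nat.succ_le_iff]
      rw [h2, h2, eq_sub_iff_add_eq, add_comm]
      exact Finset.sum_Ioc_consecutive _ (Nat.zero_le a) hab
    rw [h1]
    refine (norm_sub_le _ _).trans ?_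
    have e1 := PVh.sum_le q χ hq hχ b
    have e2 := PVh.sum_le q χ hq hχ a
    linarith
  · rw [Finset.Ioc_eq_empty (by omega)]
    simp only [Finset.sum_empty, norm_zero]
    have : 0 ≤ Real.log q := by linarith
    positivity

end Pool.Agent.H38R2.CG
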